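import Mathlib

/-!
# The Steklov problem on the closed unit ball of `ℝⁿ` with a Riemannian metric

A smooth Riemannian metric on the closed unit ball `B = {x ∈ ℝⁿ : ∑ xᵢ² ≤ 1}` makes it a smooth
compact connected Riemannian manifold with boundary `S = {∑ xᵢ² = 1}`.  All the usual objects are
written here in the global coordinates `x₀, …, x_{n-1}`.
-/

namespace Pool.Agent.TH605.Esc

open scoped ContDiff

/-- The coordinate space `ℝⁿ`. -/
abbrev E (n : ℕ) := Fin n → ℝ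

/-- The partial derivative `∂ᵢ f` at `x`. -/
noncomputable def pd {n : ℕ} (i : Fin n) (f : E n → ℝ) (x : E n) : ℝ :=
  fderiv ℝ f x (Pi.single i 1)

/-- The closed unit ball of `ℝⁿ`. -/
def ball (n : ℕ) : Set (E n) := {x | ∑ i, x i ^ 2 ≤ 1}

/-- The unit sphere of `ℝⁿ`, the boundary of `ball n`. -/
def sphere (n : ℕ) : Set (E n) := {x | ∑ i, x i ^ 2 = 1}

/-- Tangent vectors of the sphere at `x`. -/
def IsTangent {n : ℕ} (x v : E n) : Prop := ∑ i, x i * v i = 0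

/-- A matrix valued function on `ℝⁿ`; its values on (a neighbourhood of) the closed unit ball are
the coefficients `g_ij` of a metric. -/
abbrev MatFun (n : ℕ) := E n → Matrix (Fin n) (Fin n) ℝ

/-- The bilinear form with coefficients `g_ij(x)`. -/
noncomputable def MatFun.form {n : ℕ} (g : MatFun n) (x v w : E n) : ℝ :=
  ∑ i, ∑ j, g x i j * v i * w j

/-- The Christoffel symbols `Γᵏᵢⱼ = ½ ∑ₗ gᵏˡ (∂ᵢ gⱼₗ + ∂ⱼ gᵢₗ - ∂ₗ gᵢⱼ)`. -/
noncomputable def chr {n : ℕ} (g : MatFun n) (k i j : Fin n) (x : E n) : ℝ :=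
  (1 / 2) * ∑ l, (g x)⁻¹ k l *
    (pd i (fun y => g y j l) x + pd j (fun y => g y i l) x - pd l (fun y => g y i j) x)

/-- The Ricci tensor
`Ricᵢⱼ = ∑ₖ (∂ₖ Γᵏᵢⱼ - ∂ⱼ Γᵏᵢₖ) + ∑ₖₗ (Γᵏₖₗ Γˡᵢⱼ - Γᵏⱼₗ Γˡᵢₖ)`. -/
noncomputable def ric {n : ℕ} (g : MatFun n) (i j : Fin n) (x : E n) : ℝ :=
  ∑ k, (pd k (chr g k i j) x - pd j (chr g k i k) x) +
    ∑ k, ∑ l, (chr g k k l x * chr g l i j x - chr g k j l x * chr g l i k x)

/-- The Laplace-Beltrami operator `Δu = ∑ᵢⱼ gⁱʲ (∂ᵢ∂ⱼ u - ∑ₖ Γᵏᵢⱼ ∂ₖ u)`. -/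
noncomputable def lap {n : ℕ} (g : MatFun n) (u : E n → ℝ) (x : E n) : ℝ :=
  ∑ i, ∑ j, (g x)⁻¹ i j * (pd i (pd j u) x - ∑ k, chr g k i j x * pd k u x)

/-- The outward unit normal `νⁱ = ∑ⱼ gⁱʲ xⱼ / (∑ₖₗ gᵏˡ xₖ xₗ)^½` of the Euclidean spheres centred at
the origin (the `g`-gradient of `|x|²/2`, normalised). -/
noncomputable def normal {n : ℕ} (g : MatFun n) (x : E n) (i : Fin n) : ℝ :=
  (∑ j, (g x)⁻¹ i j * x j) / √(∑ k, ∑ l, (g x)⁻¹ k l * x k * x l)

/-- The second fundamental form `II(v, w) = ⟨∇_v ν, w⟩` of the unit sphere, `v, w` tangent. -/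
noncomputable def sff {n : ℕ} (g : MatFun n) (x v w : E n) : ℝ :=
  ∑ i, ∑ j, g x i j *
    (∑ k, v k * (pd k (fun y => normal g y i) x + ∑ l, chr g i k l x * normal g x l)) * w j

/-- A smooth Riemannian metric on the closed unit ball of `ℝⁿ`. -/
structure Metric (n : ℕ) where
  /-- the coefficients -/
  g : MatFun n
  smooth : ∀ x ∈ ball n, ∀ i j, ContDiffAt ℝ ∞ (fun y => g y i j) x
  symm : ∀ x ∈ ball n, ∀ i j, g x i j = g x j i
  posDef : ∀ x ∈ ball n, ∀ v : E n, v ≠ 0 → 0 < g.form x v v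

namespace Metric

variable {n : ℕ} (M : Metric n)

/-- The Riemannian scalar product. -/
noncomputable def inner (x v w : E n) : ℝ := M.g.form x v w

/-- The Ricci curvature `Ric(v, w)`. -/
noncomputable def Ric (x v w : E n) : ℝ := ∑ i, ∑ j, ric M.g i j x * v i * w j

/-- The second fundamental form of the boundary. -/
noncomputable def II (x v w : E n) : ℝ := sff M.g x v w

/-- `σ` is a Steklov eigenvalue of the closed unit ball with the metric `M`: there is a nonzero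
function `u`, smooth up to the boundary, with `Δ u = 0` in the ball and `∂_ν u = σ u` on the
sphere. -/
def IsSteklovEigenvalue (σ : ℝ) : Prop :=
  ∃ u : E n → ℝ, (∀ x ∈ ball n, ContDiffAt ℝ ∞ u x) ∧ (∃ x ∈ ball n, u x ≠ 0) ∧
    (∀ x ∈ ball n, lap M.g u x = 0) ∧
    ∀ x ∈ sphere n, ∑ i, normal M.g x i * pd i u x = σ * u x

/-- The first nonzero Steklov eigenvalue `σ₁`: the smallest positive Steklov eigenvalue. -/
noncomputable def sigmaOne : ℝ := sInf {σ : ℝ | 0 < σ ∧ M.IsSteklovEigenvalue σ}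

end Metric

end Pool.Agent.TH605.Esc
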