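import Pool.Agent.TH605.Esc.Cert

/-!
# Positivity of the linearised Ricci and boundary forms
-/

namespace Pool.Agent.TH605.Esc

/-- `P`. -/
noncomputable def pP (x : E 3) : ℝ := x 0 ^ 2 + x 1 ^ 2
/-- `Z`. -/
noncomputable def pZ (x : E 3) : ℝ := x 2 ^ 2
/-- `C`. -/
noncomputable def pC (x : E 3) : ℝ := 1 - pP x - pZ x
/-- `(P, Z, C)`. -/
noncomputable def bar (x : E 3) : E 3 := ![pP x, pZ x, pC x]

theorem ev_Px (x : E 3) : ev3 Px x = pP x := by
  simp only [Px, ev_add3, ev_mul3, ev_X0, ev_X1, pP]; ring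

theorem ev_Zx (x : E 3) : ev3 Zx x = pZ x := by
  simp only [Zx, ev_mul3, ev_X2, pZ]; ring

theorem ev_Cx (x : E 3) : ev3 Cx x = pC x := by
  simp only [Cx, ev_sub3, ev_cst, ev_Px, ev_Zx, pC]; push_cast; ring

theorem ev_toX (p : P3) (x : E 3) : ev3 (toX p) x = ev3 p (bar x) := by
  rw [toX, ev_subst, ev_Px, ev_Zx, ev_Cx]; rfl

theorem ev_SP (k : ℕ) (x : E 3) (h : x 0 + x 1 + x 2 = 1) : ev3 (SP k) x = 1 := by
  induction k with
  | zero => simp [SP, ev_cst]
  | succ k ih =>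
    rw [SP, ev_mul3, ih, ev_add3, ev_add3, ev_X0, ev_X1, ev_X2]; linarith

theorem ev_SQ (k : ℕ) (x : E 3) (h : x 0 + x 1 = 1) : ev3 (SQ k) x = 1 := by
  induction k with
  | zero => simp [SQ, ev_cst]
  | succ k ih =>
    rw [SQ, ev_mul3, ih, ev_add3, ev_X0, ev_X1]; linarith

theorem ev_hom1 (n : ℕ) (l : List (List ℤ)) (x : E 3) (h : x 0 + x 1 = 1) (h2 : x 2 = 0) :
    ev3 (hom1 n l) x = lev 1 O1.ev l x := by
  induction l generalizing n with
  | nil => simp [hom1, lev, ev3, O3, lift]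
  | cons a l ih =>
    rw [hom1, ev_add3, ev_smul3, ev_mul3, ih, ev_SQ n x h, ev_X1, lev]
    have : O1.ev a x = ((a.headD 0 : ℤ) : ℝ) := by
      cases a with
      | nil => simp [O1, lift, lev]
      | cons c a => simp [O1, lift, lev, h2, O0]
    rw [this]; ring

theorem ev_hom2 (n : ℕ) (p : P3) (x : E 3) (h : x 0 + x 1 = 1) (h2 : x 2 = 0) :
    ev3 (hom2 n p) x = ev3 p x := by
  show _ = lev 0 O2.ev p x
  induction p generalizing n with
  | nil => simp [hom2, lev, ev3, O3, lift]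
  | cons a l ih =>
    rw [hom2, ev_add3, ev_mul3, ih, ev_hom1 n a x h h2, ev_X0, lev]
    rfl

theorem bar_mem {x : E 3} (hx : x ∈ ball 3) : 0 ≤ pP x ∧ 0 ≤ pZ x ∧ 0 ≤ pC x := by
  have : ∑ i, x i ^ 2 ≤ 1 := hx
  rw [Fin.sum_univ_three] at this
  refine ⟨by unfold pP; positivity, by unfold pZ; positivity, ?_⟩
  unfold pC pP pZ; linarith

theorem bar_sum (x : E 3) : (bar x) 0 + (bar x) 1 + (bar x) 2 = 1 := by
  simp [bar, pC]

theorem pos_of_check {t : Tree} {p : P3} {k : ℕ} (h : check t (sub3 p (SP k)) = true) {x : E 3}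
    (hx : x ∈ ball 3) : 0 < ev3 p (bar x) := by
  obtain ⟨h1, h2, h3⟩ := bar_mem hx
  have := check_sound t _ h _ _ _ h1 h2 h3
  rw [ev_sub3] at this
  have h4 := ev_SP k (bar x) (bar_sum x)
  unfold bar at *
  linarith

theorem pC_sphere {x : E 3} (hx : x ∈ sphere 3) : pC x = 0 := by
  have : ∑ i, x i ^ 2 = 1 := hx
  rw [Fin.sum_univ_three] at this
  unfold pC pP pZ; linarith

theorem sphere_sub {n : ℕ} {x : E n} (hx : x ∈ sphere n) : x ∈ ball n := le_of_eq hx

theorem pos_of_check2 {t : Tree} {p : P3} {k m : ℕ}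
    (h : check t (sub3 (smul3 10 (hom2 m p)) (SQ k)) = true) {x : E 3}
    (hx : x ∈ sphere 3) : 0 < ev3 p (bar x) := by
  obtain ⟨h1, h2, h3⟩ := bar_mem (sphere_sub hx)
  have := check_sound t _ h _ _ _ h1 h2 h3
  have hC := pC_sphere hx
  have hs : (bar x) 0 + (bar x) 1 = 1 := by
    have := bar_sum x
    have h5 : (bar x) 2 = pC x := rfl
    rw [h5, hC] at this
    linarith
  have h0 : (bar x) 2 = 0 := hC
  rw [ev_sub3, ev_smul3] at this
  have h4 := ev_SQ k (bar x) hs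
  have h5 := ev_hom2 m p (bar x) hs h0
  unfold bar at *
  rw [h4, h5] at this
  push_cast at this
  linarith

theorem sq2 {a b : ℝ} (h : a ^ 2 + b ^ 2 ≤ 0) : a = 0 ∧ b = 0 :=
  ⟨by nlinarith [sq_nonneg a, sq_nonneg b], by nlinarith [sq_nonneg a, sq_nonneg b]⟩

theorem ric_pos {x : E 3} (hx : x ∈ ball 3) {v : E 3} (hv : v ≠ 0) :
    0 < ∑ i, ∑ j, ev3 (RL i j) x * v i * v j := by
  have hal := pos_of_check c_al hx
  have hze := pos_of_check c_ze hx
  have hD := pos_of_check c_D hx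
  simp only [DL, ev_sub3, ev_mul3, ev_add3, ev_X0, ev_X1] at hD
  set al := ev3 alL (bar x) with hal'
  set ze := ev3 zeL (bar x) with hze'
  set de := ev3 deL (bar x) with hde'
  set ga := ev3 gaL (bar x) with hga'
  have hb0 : bar x 0 = pP x := rfl
  have hb1 : bar x 1 = pZ x := rfl
  rw [hb0, hb1] at hD
  have e00 := eq3_sound c_R00 x
  have e01 := eq3_sound c_R01 x
  have e02 := eq3_sound c_R02 x
  have e10 := eq3_sound c_R10 x
  have e11 := eq3_sound c_R11 x
  have e12 := eq3_sound c_R12 x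
  have e20 := eq3_sound c_R20 x
  have e21 := eq3_sound c_R21 x
  have e22 := eq3_sound c_R22 x
  simp only [ev_add3, ev_mul3, ev_toX, ev_X0, ev_X1, ev_X2, ← hal', ← hze', ← hde', ← hga'] at *
  simp only [Fin.sum_univ_three, e00, e01, e02, e10, e11, e12, e20, e21, e22]
  set s := x 0 * v 0 + x 1 * v 1 with hs
  have hq : (al + ga * (x 0 * x 0)) * v 0 * v 0 + ga * (x 0 * x 1) * v 0 * v 1 +
        de * (x 0 * x 2) * v 0 * v 2 +
      (ga * (x 0 * x 1) * v 1 * v 0 + (al + ga * (x 1 * x 1)) * v 1 * v 1 +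
        de * (x 1 * x 2) * v 1 * v 2) +
      (de * (x 0 * x 2) * v 2 * v 0 + de * (x 1 * x 2) * v 2 * v 1 + ze * v 2 * v 2) =
      al * (v 0 ^ 2 + v 1 ^ 2) + ga * s ^ 2 + 2 * de * x 2 * s * v 2 + ze * v 2 ^ 2 := by
    rw [hs]; ring
  rw [hq]
  have hP : 0 ≤ pP x := (bar_mem hx).1
  rcases hP.eq_or_lt with hP0 | hP0
  · have h01 : x 0 = 0 ∧ x 1 = 0 := sq2 (by unfold pP at hP0; exact hP0.ge)
    have h0 : x 0 = 0 := h01.1
    have h1 : x 1 = 0 := h01.2
    have hs0 : s = 0 := by rw [hs, h0, h1]; ring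
    rw [hs0]
    by_cases h2 : v 2 = 0
    · have : 0 < v 0 ^ 2 + v 1 ^ 2 := by
        by_contra hcon
        apply hv
        obtain ⟨a0, a1⟩ := sq2 (not_lt.1 hcon)
        ext i; fin_cases i <;> simp [a0, a1, h2]
      have h9 := mul_pos hal this
      have e9 : al * (v 0 ^ 2 + v 1 ^ 2) + ga * 0 ^ 2 + 2 * de * x 2 * 0 * 0 + ze * 0 ^ 2 =
          al * (v 0 ^ 2 + v 1 ^ 2) := by ring
      rw [h2, e9]; exact h9
    · have h3 : 0 < v 2 ^ 2 := by positivity
      have h9 := mul_pos hze h3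
      have h4 : 0 ≤ al * (v 0 ^ 2 + v 1 ^ 2) := by positivity
      have e9 : al * (v 0 ^ 2 + v 1 ^ 2) + ga * 0 ^ 2 + 2 * de * x 2 * 0 * v 2 + ze * v 2 ^ 2 =
          al * (v 0 ^ 2 + v 1 ^ 2) + ze * v 2 ^ 2 := by ring
      rw [e9]; exact add_pos_of_nonneg_of_pos h4 h9
  · -- multiply by `P ζ`
    set t := x 0 * v 1 - x 1 * v 0 with ht
    have hst : pP x * (v 0 ^ 2 + v 1 ^ 2) = s ^ 2 + t ^ 2 := by
      rw [hs, ht]; unfold pP; ring
    have hPZ : pZ x = x 2 ^ 2 := rfl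
    have hid : ze * (pP x * (al * (v 0 ^ 2 + v 1 ^ 2) + ga * s ^ 2 + 2 * de * x 2 * s * v 2 +
        ze * v 2 ^ 2)) = ze * al * t ^ 2 +
        ((al + ga * pP x) * ze - de * de * (pP x * pZ x)) * s ^ 2 +
        pP x * (ze * v 2 + de * x 2 * s) ^ 2 := by
      rw [hPZ]
      linear_combination ze * al * hst
    have hpos : 0 < ze * al * t ^ 2 +
        ((al + ga * pP x) * ze - de * de * (pP x * pZ x)) * s ^ 2 +
        pP x * (ze * v 2 + de * x 2 * s) ^ 2 := by
      have n1 : 0 ≤ ze * al * t ^ 2 := by positivity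
      have n2 : 0 ≤ ((al + ga * pP x) * ze - de * de * (pP x * pZ x)) * s ^ 2 :=
        mul_nonneg hD.le (sq_nonneg _)
      have n3 : 0 ≤ pP x * (ze * v 2 + de * x 2 * s) ^ 2 := by positivity
      by_contra hcon
      have m1 : ze * al * t ^ 2 = 0 := by linarith
      have m2 : ((al + ga * pP x) * ze - de * de * (pP x * pZ x)) * s ^ 2 = 0 := by linarith
      have m3 : pP x * (ze * v 2 + de * x 2 * s) ^ 2 = 0 := by linarith
      have t0 : t = 0 := by
        rcases mul_eq_zero.1 m1 with h | h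
        · exact absurd h (mul_pos hze hal).ne'
        · exact pow_eq_zero_iff (two_ne_zero) |>.1 h
      have s0 : s = 0 := by
        rcases mul_eq_zero.1 m2 with h | h
        · exact absurd h hD.ne'
        · exact pow_eq_zero_iff (two_ne_zero) |>.1 h
      have v2 : v 2 = 0 := by
        rcases mul_eq_zero.1 m3 with h | h
        · exact absurd h hP0.ne'
        · have := pow_eq_zero_iff (two_ne_zero) |>.1 h
          rw [s0] at this
          have h5 : ze * v 2 = 0 := by linarith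
          rcases mul_eq_zero.1 h5 with h6 | h6
          · exact absurd h6 hze.ne'
          · exact h6
      have h6 : v 0 ^ 2 + v 1 ^ 2 = 0 := by
        rw [s0, t0] at hst
        have : pP x * (v 0 ^ 2 + v 1 ^ 2) = 0 := by rw [hst]; ring
        rcases mul_eq_zero.1 this with h | h
        · exact absurd h hP0.ne'
        · exact h
      apply hv
      obtain ⟨a0, a1⟩ := sq2 h6.le
      ext i; fin_cases i <;> simp [a0, a1, v2]
    rw [← hid] at hpos
    have := (mul_pos_iff_of_pos_left hze).1 hpos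
    exact (mul_pos_iff_of_pos_left hP0).1 this

theorem bd_pos {x : E 3} (hx : x ∈ sphere 3) {v : E 3} (hv : v ≠ 0) (hvt : IsTangent x v) :
    0 < ∑ i, ∑ j, ev3 (BL i j) x * v i * v j := by
  have hmu := pos_of_check2 c_mu hx
  have hbX := pos_of_check2 c_bX hx
  simp only [bXL, ev_sub3, ev_mul3, ev_add3, ev_smul3, ev_X0, ev_X1] at hbX
  set mu := ev3 muL (bar x) with hmu'
  set nu := ev3 nuL (bar x) with hnu'
  set ta := ev3 taL (bar x) with hta'
  set ka := ev3 kaL (bar x) with hka'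
  have hb0 : bar x 0 = pP x := rfl
  have hb1 : bar x 1 = pZ x := rfl
  rw [hb0, hb1] at hbX
  have e00 := eq3_sound c_B00 x
  have e01 := eq3_sound c_B01 x
  have e02 := eq3_sound c_B02 x
  have e10 := eq3_sound c_B10 x
  have e11 := eq3_sound c_B11 x
  have e12 := eq3_sound c_B12 x
  have e20 := eq3_sound c_B20 x
  have e21 := eq3_sound c_B21 x
  have e22 := eq3_sound c_B22 x
  simp only [ev_add3, ev_mul3, ev_toX, ev_X0, ev_X1, ev_X2, ← hmu', ← hnu', ← hta', ← hka'] at *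
  simp only [Fin.sum_univ_three, e00, e01, e02, e10, e11, e12, e20, e21, e22]
  have htan : x 0 * v 0 + x 1 * v 1 + x 2 * v 2 = 0 := by
    have : ∑ i, x i * v i = 0 := hvt
    rwa [Fin.sum_univ_three] at this
  set s := x 0 * v 0 + x 1 * v 1 with hs
  have hs2 : s = -(x 2 * v 2) := by linarith
  have hq : (mu + nu * (x 0 * x 0)) * v 0 * v 0 + nu * (x 0 * x 1) * v 0 * v 1 +
        ta * (x 0 * x 2) * v 0 * v 2 +
      (nu * (x 0 * x 1) * v 1 * v 0 + (mu + nu * (x 1 * x 1)) * v 1 * v 1 +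
        ta * (x 1 * x 2) * v 1 * v 2) +
      (ta * (x 0 * x 2) * v 2 * v 0 + ta * (x 1 * x 2) * v 2 * v 1 + ka * v 2 * v 2) =
      mu * (v 0 ^ 2 + v 1 ^ 2) + nu * s ^ 2 + 2 * ta * x 2 * s * v 2 + ka * v 2 ^ 2 := by
    rw [hs]; ring
  rw [hq]
  have hP : 0 ≤ pP x := (bar_mem (sphere_sub hx)).1
  have hsph : x 0 ^ 2 + x 1 ^ 2 + x 2 ^ 2 = 1 := by
    have : ∑ i, x i ^ 2 = 1 := hx
    rwa [Fin.sum_univ_three] at this
  have hPZ : pZ x = x 2 ^ 2 := rfl
  rcases hP.eq_or_lt with hP0 | hP0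
  · have h01 : x 0 = 0 ∧ x 1 = 0 := sq2 (by unfold pP at hP0; exact hP0.ge)
    have h0 : x 0 = 0 := h01.1
    have h1 : x 1 = 0 := h01.2
    have hs0 : s = 0 := by rw [hs, h0, h1]; ring
    have hx2 : x 2 ≠ 0 := by
      intro h; rw [h0, h1, h] at hsph; norm_num at hsph
    have h2 : v 2 = 0 := by
      have : x 2 * v 2 = 0 := by linarith
      rcases mul_eq_zero.1 this with h | h
      · exact absurd h hx2
      · exact h
    have : 0 < v 0 ^ 2 + v 1 ^ 2 := by
      by_contra hcon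
      apply hv
      obtain ⟨a0, a1⟩ := sq2 (not_lt.1 hcon)
      ext i; fin_cases i <;> simp [a0, a1, h2]
    have h9 := mul_pos hmu this
    have e9 : mu * (v 0 ^ 2 + v 1 ^ 2) + nu * 0 ^ 2 + 2 * ta * x 2 * 0 * 0 + ka * 0 ^ 2 =
        mu * (v 0 ^ 2 + v 1 ^ 2) := by ring
    rw [h2, hs0, e9]; exact h9
  · set t := x 0 * v 1 - x 1 * v 0 with ht
    have hst : pP x * (v 0 ^ 2 + v 1 ^ 2) = s ^ 2 + t ^ 2 := by
      rw [hs, ht]; unfold pP; ring
    have hid : pP x * (mu * (v 0 ^ 2 + v 1 ^ 2) + nu * s ^ 2 + 2 * ta * x 2 * s * v 2 +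
        ka * v 2 ^ 2) = mu * t ^ 2 +
        (mu * pZ x + pP x * (nu * pZ x - (2 : ℤ) * (ta * pZ x) + ka)) * v 2 ^ 2 := by
      rw [hPZ]
      rw [hs2] at hst ⊢
      push_cast
      linear_combination mu * hst
    have n1 : 0 ≤ mu * t ^ 2 := by positivity
    have n2 : 0 ≤ (mu * pZ x + pP x * (nu * pZ x - (2 : ℤ) * (ta * pZ x) + ka)) * v 2 ^ 2 :=
      mul_nonneg hbX.le (sq_nonneg _)
    have hpos : 0 < mu * t ^ 2 +
        (mu * pZ x + pP x * (nu * pZ x - (2 : ℤ) * (ta * pZ x) + ka)) * v 2 ^ 2 := by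
      by_contra hcon
      have m1 : mu * t ^ 2 = 0 := by linarith
      have m2 : (mu * pZ x + pP x * (nu * pZ x - (2 : ℤ) * (ta * pZ x) + ka)) * v 2 ^ 2 = 0 := by
        linarith
      have t0 : t = 0 := by
        rcases mul_eq_zero.1 m1 with h | h
        · exact absurd h hmu.ne'
        · exact pow_eq_zero_iff (two_ne_zero) |>.1 h
      have v2 : v 2 = 0 := by
        rcases mul_eq_zero.1 m2 with h | h
        · exact absurd h hbX.ne'
        · exact pow_eq_zero_iff (two_ne_zero) |>.1 h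
      have s0 : s = 0 := by rw [hs2, v2]; ring
      have h6 : v 0 ^ 2 + v 1 ^ 2 = 0 := by
        rw [s0, t0] at hst
        have : pP x * (v 0 ^ 2 + v 1 ^ 2) = 0 := by rw [hst]; ring
        rcases mul_eq_zero.1 this with h | h
        · exact absurd h hP0.ne'
        · exact h
      apply hv
      obtain ⟨a0, a1⟩ := sq2 h6.le
      ext i; fin_cases i <;> simp [a0, a1, v2]
    rw [← hid] at hpos
    exact (mul_pos_iff_of_pos_left hP0).1 hpos

end Pool.Agent.TH605.Esc
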