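import Pool.Agent.TH605.Esc.Ex2
import Pool.Agent.TH605.Esc.Pos

/-!
# The counterexample to Escobar's conjecture in dimension three
-/

namespace Pool.Agent.TH605.Esc

open scoped ContDiff Topology

/-! ### Compactness -/

theorem isClosed_ball : IsClosed (ball 3) := by
  unfold ball
  exact isClosed_le (by fun_prop) continuous_const

theorem isClosed_sphere : IsClosed (sphere 3) := by
  unfold sphere
  exact isClosed_eq (by fun_prop) continuous_const

theorem isCompact_ball : IsCompact (ball 3) := by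
  refine Metric.isCompact_of_isClosed_isBounded isClosed_ball ?_
  refine (Metric.isBounded_closedBall (x := (0 : E 3)) (r := 1)).subset ?_
  intro x hx
  rw [mem_closedBall_zero_iff, pi_norm_le_iff_of_nonneg zero_le_one]
  intro i
  have h : ∑ i, x i ^ 2 ≤ 1 := hx
  have h2 : x i ^ 2 ≤ ∑ i, x i ^ 2 :=
    Finset.single_le_sum (f := fun i => x i ^ 2) (fun j _ => sq_nonneg (x j)) (Finset.mem_univ i)
  rw [Real.norm_eq_abs]
  exact abs_le_one_iff_mul_self_le_one.2 (by nlinarith)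

theorem isCompact_sphere : IsCompact (sphere 3) :=
  isCompact_ball.of_isClosed_subset isClosed_sphere fun _ h => sphere_sub h

/-- Points with unit tangent vectors of the sphere. -/
def TS : Set (E 3 × E 3) := (sphere 3 ×ˢ sphere 3) ∩ {p | IsTangent p.1 p.2}

theorem isCompact_TS : IsCompact TS := by
  refine (isCompact_sphere.prod isCompact_sphere).inter_right ?_
  unfold IsTangent
  exact isClosed_eq (by fun_prop) continuous_const

theorem ne_zero_of_sphere {v : E 3} (hv : v ∈ sphere 3) : v ≠ 0 := by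
  rintro rfl
  have : ∑ i, (0 : E 3) i ^ 2 = 1 := hv
  simp at this

theorem exists_scale {v : E 3} (hv : v ≠ 0) : ∃ t : ℝ, 0 < t ∧ ∃ w ∈ sphere 3, v = t • w := by
  have hpos : 0 < ∑ i, v i ^ 2 := by
    by_contra h
    apply hv
    have h0 : ∑ i, v i ^ 2 = 0 :=
      le_antisymm (not_lt.1 h) (Finset.sum_nonneg fun i _ => sq_nonneg _)
    rw [Finset.sum_eq_zero_iff_of_nonneg fun i _ => sq_nonneg _] at h0
    ext i
    exact pow_eq_zero_iff (two_ne_zero) |>.1 (h0 i (Finset.mem_univ i))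
  refine ⟨√(∑ i, v i ^ 2), Real.sqrt_pos.2 hpos, (√(∑ i, v i ^ 2))⁻¹ • v, ?_, ?_⟩
  · show ∑ i, ((√(∑ i, v i ^ 2))⁻¹ • v) i ^ 2 = 1
    simp only [Pi.smul_apply, smul_eq_mul, mul_pow, ← Finset.mul_sum, inv_pow]
    rw [Real.sq_sqrt hpos.le]
    exact inv_mul_cancel₀ hpos.ne'
  · rw [smul_smul, mul_inv_cancel₀ (Real.sqrt_pos.2 hpos).ne', one_smul]

theorem soft {U : Set (ℝ × E 3)} (hU : IsOpen U) (hU0 : ∀ x, ((0 : ℝ), x) ∈ U)
    {Φ : (ℝ × E 3) × E 3 → ℝ}
    (hΦ : ContinuousOn Φ (U ×ˢ Set.univ)) {S : Set (E 3 × E 3)} (hS : IsCompact S)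
    (hpos : ∀ p ∈ S, 0 < Φ ((0, p.1), p.2)) :
    ∀ᶠ ε in 𝓝 (0 : ℝ), ∀ p ∈ S, 0 < Φ ((ε, p.1), p.2) := by
  refine hS.eventually_forall_of_forall_eventually (P := fun ε p => 0 < Φ ((ε, p.1), p.2))
    fun p hp => ?_
  have hc : ContinuousAt Φ ((0, p.1), p.2) :=
    hΦ.continuousAt ((hU.prod isOpen_univ).mem_nhds ⟨hU0 p.1, Set.mem_univ _⟩)
  have hg : ContinuousAt (fun z : ℝ × (E 3 × E 3) => ((z.1, z.2.1), z.2.2)) (0, p) := by
    fun_prop
  have h2 : ContinuousAt (fun z : ℝ × (E 3 × E 3) => Φ ((z.1, z.2.1), z.2.2)) (0, p) :=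
    ContinuousAt.comp (g := Φ) (f := fun z : ℝ × (E 3 × E 3) => ((z.1, z.2.1), z.2.2)) hc hg
  exact h2.eventually (lt_mem_nhds (hpos p hp))

theorem softU {U : Set (ℝ × E 3)} (hU : IsOpen U) (hU0 : ∀ x, ((0 : ℝ), x) ∈ U) :
    ∀ᶠ ε in 𝓝 (0 : ℝ), ∀ x ∈ ball 3, (ε, x) ∈ U := by
  refine isCompact_ball.eventually_forall_of_forall_eventually (P := fun ε x => (ε, x) ∈ U)
    fun p _ => ?_
  exact (hU.mem_nhds (hU0 p))

/-! ### The data -/

theorem contDiff_bar : ContDiff ℝ ∞ bar := by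
  unfold bar
  refine contDiff_pi.2 fun i => ?_
  fin_cases i
  · show ContDiff ℝ ∞ pP
    unfold pP; fun_prop
  · show ContDiff ℝ ∞ pZ
    unfold pZ; fun_prop
  · show ContDiff ℝ ∞ pC
    unfold pC pP pZ; fun_prop

theorem contDiff_vec : ContDiff ℝ ∞ (fun p : ℝ => (![p, 0, 0] : E 3)) := by
  refine contDiff_pi.2 fun i => ?_
  fin_cases i
  · exact contDiff_id
  · exact contDiff_const
  · exact contDiff_const

/-- The explicit data. -/
noncomputable def dat : Data where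
  A1 p := ev3 A1L ![p, 0, 0]
  Q p := ev3 QL ![p, 0, 0]
  A2 x := ev3 A2L (bar x)
  E1 x := ev3 E1L (bar x)
  hA1 := ((contDiff_ev3 A1L).of_le le_top).comp contDiff_vec
  hQ := ((contDiff_ev3 QL).of_le le_top).comp contDiff_vec
  hA2 := ((contDiff_ev3 A2L).of_le le_top).comp contDiff_bar
  hE1 := ((contDiff_ev3 E1L).of_le le_top).comp contDiff_bar

theorem ev_a1x (x : E 3) : ev3 a1x x = dat.A1 (Data.P (0, x)) := by
  rw [a1x, ev_subst, ev_Px, ev_cst]; simp [dat, Data.P, pP]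

theorem ev_qx (x : E 3) : ev3 qx x = dat.Q (Data.P (0, x)) := by
  rw [qx, ev_subst, ev_Px, ev_cst]; simp [dat, Data.P, pP]

theorem ev_a2x (x : E 3) : ev3 a2x x = Data.C (0, x) * dat.A2 x := by
  rw [a2x, ev_mul3, ev_Cx]
  have := ev_toX A2L x
  rw [toX] at this
  rw [this]
  rfl

theorem ev_e1x (x : E 3) : ev3 e1x x = Data.C (0, x) * dat.E1 x := by
  rw [e1x, ev_mul3, ev_Cx]
  have := ev_toX E1L x
  rw [toX] at this
  rw [this]
  rfl

theorem ev_nil (x : E 3) : ev3 [] x = 0 := rfl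

theorem h_eq (i j : Fin 3) : dat.F.h i j = ev3 (hE i j) := by
  funext x
  rw [← eq3_sound (c_h i j) x]
  show dat.H i j (0, x) = _
  have hP : Data.P (0, x) = ev3 Px x := (ev_Px x).symm
  have h00 : dat.H00 (0, x) = ev3 (hL 0 0) x := by
    show _ = ev3 (add3 fL (mul3 kL (mul3 X0 X0))) x
    simp only [fL, kL, ev_add3, ev_mul3, ev_sub3, ev_smul3, ev_X0, ev_a1x, ev_qx, ev_a2x, ev_e1x,
      ← hP, Data.H00, Data.A, Data.V, Data.u, Data.β, Data.m, Data.nn]
    push_cast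
    simp
    ring
  have h01 : dat.H01 (0, x) = ev3 (hL 0 1) x := by
    show _ = ev3 (mul3 kL (mul3 X0 X1)) x
    simp only [kL, ev_add3, ev_mul3, ev_sub3, ev_smul3, ev_X0, ev_X1, ev_a1x, ev_qx,
      ev_e1x, Data.H01, Data.V, Data.u, Data.β, Data.m, Data.nn]
    push_cast
    simp only [zero_mul, add_zero, one_mul, div_one]
    ring
  have h11 : dat.H11 (0, x) = ev3 (hL 1 1) x := by
    show _ = ev3 (add3 fL (mul3 kL (mul3 X1 X1))) x
    simp only [fL, kL, ev_add3, ev_mul3, ev_sub3, ev_smul3, ev_X1, ev_a1x, ev_qx, ev_a2x, ev_e1x,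
      ← hP, Data.H11, Data.A, Data.V, Data.u, Data.β, Data.m, Data.nn]
    push_cast
    simp
    ring
  have h22 : dat.H22 (0, x) = ev3 (hL 2 2) x := by
    show _ = ev3 sL x
    simp only [sL, ev_add3, ev_mul3, ev_sub3, ev_smul3, ev_qx, ev_a2x, ev_e1x,
      ← hP, Data.H22, Data.A, Data.B, Data.β, Data.m]
    push_cast
    simp
    ring
  fin_cases i <;> fin_cases j
  · exact h00
  · exact h01
  · rfl
  · exact h01
  · exact h11
  · rfl
  · rfl
  · rfl
  · exact h22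

theorem pd_ev3 (i : Fin 3) (p : P3) : pd i (ev3 p) = ev3 (d3 i p) := by
  funext x; exact ev_d3 i p x

theorem ev_sum3 (f : Fin 3 → P3) (x : E 3) : ev3 (sum3 f) x = ∑ k, ev3 (f k) x := by
  rw [sum3, ev_add3, ev_add3, Fin.sum_univ_three]; ring

theorem rt_zero' (i j : Fin 3) (x : E 3) : dat.F.rt i j (0, x) = (1 / 2) * ev3 (RL i j) x := by
  rw [Fam.rt_zero (fun y => Data.zero_mem y)
    (fun i j => by rw [h_eq]; exact contDiff_ev3 _)]
  congr 1
  simp only [h_eq, pd_ev3]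
  rw [RL, ev_sum3]
  refine Finset.sum_congr rfl fun k _ => ?_
  simp only [ev_sub3, ev_add3]

/-! ### Ricci curvature -/

/-- The Ricci form divided by `ε`. -/
noncomputable def ΦR (z : (ℝ × E 3) × E 3) : ℝ := ∑ i, ∑ j, dat.F.rt i j z.1 * z.2 i * z.2 j

theorem continuousOn_comp_fst {f : ℝ × E 3 → ℝ} {U : Set (ℝ × E 3)} (h : ContinuousOn f U) :
    ContinuousOn (fun z : (ℝ × E 3) × E 3 => f z.1) (U ×ˢ Set.univ) :=
  h.comp continuousOn_fst fun _ hz => hz.1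

theorem continuousOn_coord (i : Fin 3) (S : Set ((ℝ × E 3) × E 3)) :
    ContinuousOn (fun z : (ℝ × E 3) × E 3 => z.2 i) S := by
  fun_prop

theorem continuousOn_coord' (i : Fin 3) (S : Set ((ℝ × E 3) × E 3)) :
    ContinuousOn (fun z : (ℝ × E 3) × E 3 => z.1.2 i) S := by
  fun_prop

theorem cont_ΦR : ContinuousOn ΦR (dat.U ×ˢ Set.univ) := by
  unfold ΦR
  refine continuousOn_finsetSum _ fun i _ => continuousOn_finsetSum _ fun j _ => ?_
  exact ((continuousOn_comp_fst (Fam.contDiffOn_rt i j).continuousOn).mul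
    (continuousOn_coord i _)).mul (continuousOn_coord j _)

theorem ev_R : ∀ᶠ ε in 𝓝 (0 : ℝ), ∀ p ∈ ball 3 ×ˢ sphere 3, 0 < ΦR ((ε, p.1), p.2) := by
  refine soft dat.isOpen_U Data.zero_mem cont_ΦR (isCompact_ball.prod isCompact_sphere) ?_
  rintro ⟨x, v⟩ ⟨hx, hv⟩
  have := ric_pos hx (ne_zero_of_sphere hv)
  show 0 < ∑ i, ∑ j, dat.F.rt i j (0, x) * v i * v j
  simp only [rt_zero']
  have e : ∑ i, ∑ j, (1 / 2) * ev3 (RL i j) x * v i * v j =
      (1 / 2) * ∑ i, ∑ j, ev3 (RL i j) x * v i * v j := by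
    rw [Finset.mul_sum]
    refine Finset.sum_congr rfl fun i _ => ?_
    rw [Finset.mul_sum]
    exact Finset.sum_congr rfl fun j _ => by ring
  rw [e]
  linarith

/-! ### Positive definiteness -/

/-- The metric. -/
noncomputable def ΦG (z : (ℝ × E 3) × E 3) : ℝ :=
  ∑ i, z.2 i * z.2 i + z.1.1 * ∑ i, ∑ j, dat.H i j z.1 * z.2 i * z.2 j

theorem cont_H (i j : Fin 3) : ContinuousOn (dat.H i j) dat.U :=
  (dat.F.hH i j).continuousOn

theorem cont_HH : ContinuousOn (fun z : (ℝ × E 3) × E 3 =>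
    ∑ i, ∑ j, dat.H i j z.1 * z.2 i * z.2 j) (dat.U ×ˢ Set.univ) := by
  refine continuousOn_finsetSum _ fun i _ => continuousOn_finsetSum _ fun j _ => ?_
  exact ((continuousOn_comp_fst (cont_H i j)).mul
    (continuousOn_coord i _)).mul (continuousOn_coord j _)

theorem cont_ΦG : ContinuousOn ΦG (dat.U ×ˢ Set.univ) := by
  unfold ΦG
  refine ContinuousOn.add (by fun_prop) (ContinuousOn.mul (by fun_prop) cont_HH)

theorem ev_G : ∀ᶠ ε in 𝓝 (0 : ℝ), ∀ p ∈ ball 3 ×ˢ sphere 3, 0 < ΦG ((ε, p.1), p.2) := by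
  refine soft dat.isOpen_U Data.zero_mem cont_ΦG (isCompact_ball.prod isCompact_sphere) ?_
  rintro ⟨x, v⟩ ⟨hx, hv⟩
  have hv' : ∑ i, v i ^ 2 = 1 := hv
  show 0 < ∑ i, v i * v i + 0 * _
  rw [zero_mul, add_zero]
  have : ∑ i, v i * v i = 1 := by rw [← hv']; exact Finset.sum_congr rfl fun i _ => by ring
  rw [this]; exact one_pos

/-! ### The boundary -/

/-- `∑ vₖ vⱼ ∑ xₘ γᵐₖⱼ`. -/
noncomputable def ΓΓ (z : (ℝ × E 3) × E 3) : ℝ :=
  ∑ k, ∑ j, z.2 k * z.2 j * ∑ m, z.1.2 m * dat.F.gam m k j z.1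

/-- `(II - (1 + ε/2) g) / ε`. -/
noncomputable def ΦB (z : (ℝ × E 3) × E 3) : ℝ :=
  dat.H22 z.1 * (∑ i, z.2 i * z.2 i - z.1.1 * ΓΓ z) - ΓΓ z - (1 / 2) * ∑ i, z.2 i * z.2 i -
    (1 + z.1.1 / 2) * ∑ i, ∑ j, dat.H i j z.1 * z.2 i * z.2 j

theorem cont_ΓΓ : ContinuousOn ΓΓ (dat.U ×ˢ Set.univ) := by
  unfold ΓΓ
  refine continuousOn_finsetSum _ fun k _ => continuousOn_finsetSum _ fun j _ => ?_
  refine ContinuousOn.mul (by fun_prop) (continuousOn_finsetSum _ fun m _ => ?_)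
  exact (continuousOn_coord' m _).mul
    (continuousOn_comp_fst (Fam.contDiffOn_gam (F := dat.F) m k j).continuousOn)

theorem cont_ΦB : ContinuousOn ΦB (dat.U ×ˢ Set.univ) := by
  unfold ΦB
  have h22 : ContinuousOn (fun z : (ℝ × E 3) × E 3 => dat.H22 z.1) (dat.U ×ˢ Set.univ) :=
    continuousOn_comp_fst (dat.cH22.continuousOn.mono dat.U_sub)
  have h1 := cont_ΓΓ
  have h2 := cont_HH
  refine ((h22.mul (ContinuousOn.sub (by fun_prop) (ContinuousOn.mul (by fun_prop) h1))).sub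
    h1).sub (by fun_prop) |>.sub (ContinuousOn.mul (by fun_prop) h2)

theorem ev_B : ∀ᶠ ε in 𝓝 (0 : ℝ), ∀ p ∈ TS, 0 < ΦB ((ε, p.1), p.2) := by
  refine soft dat.isOpen_U Data.zero_mem cont_ΦB isCompact_TS ?_
  rintro ⟨x, v⟩ ⟨⟨hx, hv⟩, ht⟩
  have hb := bd_pos hx (ne_zero_of_sphere hv) ht
  have hgam : ∀ m k j, dat.F.gam m k j (0, x) = (1 / 2) * (ev3 (d3 k (hE j m)) x +
      ev3 (d3 j (hE k m)) x - ev3 (d3 m (hE k j)) x) := by
    intro m k j
    rw [Fam.gam_zero (Data.zero_mem x)]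
    simp only [h_eq, pd_ev3]
  have hH : ∀ i j, dat.H i j (0, x) = ev3 (hE i j) x := fun i j => congrFun (h_eq i j) x
  have h22 : dat.H22 (0, x) = ev3 h22E x := hH 2 2
  have key : ΦB ((0, x), v) = (1 / 2) * ∑ i, ∑ j, ev3 (BL i j) x * v i * v j := by
    simp only [ΦB, ΓΓ, hgam, hH, h22, Fin.sum_univ_three, BL, ev_sub3, ev_sum3, ev_mul3, ev_add3]
    simp only [show (0 : Fin 3) ≠ 1 by decide, show (0 : Fin 3) ≠ 2 by decide,
      show (1 : Fin 3) ≠ 0 by decide, show (1 : Fin 3) ≠ 2 by decide,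
      show (2 : Fin 3) ≠ 0 by decide, show (2 : Fin 3) ≠ 1 by decide, if_true, if_false,
      ev_sub3, ev_smul3, ev_cst, ev_nil]
    have hX0 : ev3 (XL 0) x = x 0 := ev_X0 x
    have hX1 : ev3 (XL 1) x = x 1 := ev_X1 x
    have hX2 : ev3 (XL 2) x = x 2 := ev_X2 x
    simp only [hX0, hX1, hX2]
    push_cast
    ring
  rw [key]
  linarith

/-! ### The counterexample -/

theorem form_G (ε : ℝ) (x v : E 3) : (dat.F.G ε).form x v v = ΦG ((ε, x), v) := by
  have : ∀ i j, dat.F.G ε x i j * v i * v j =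
      (if i = j then v i * v i else 0) + ε * (dat.H i j (ε, x) * v i * v j) := by
    intro i j
    rw [Fam.G_apply]
    show ((if i = j then (1 : ℝ) else 0) + ε * dat.H i j (ε, x)) * v i * v j = _
    split_ifs with h
    · subst h; ring
    · ring
  unfold MatFun.form ΦG
  simp only [this, Finset.sum_add_distrib, ← Finset.mul_sum]
  simp

theorem quad_smul (f : Fin 3 → Fin 3 → ℝ) (t : ℝ) (w : E 3) :
    ∑ i, ∑ j, f i j * (t • w) i * (t • w) j = t ^ 2 * ∑ i, ∑ j, f i j * w i * w j := by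
  simp only [Pi.smul_apply, smul_eq_mul, Finset.mul_sum]
  exact Finset.sum_congr rfl fun i _ => Finset.sum_congr rfl fun j _ => by ring

theorem sff_G {ε : ℝ} {x v : E 3} (hw : (ε, x) ∈ dat.U) (hx : x ∈ sphere 3)
    (hv : IsTangent x v) :
    sff (dat.F.G ε) x v v - (1 + ε / 2) * (dat.F.G ε).form x v v = ε * ΦB ((ε, x), v) := by
  have hab : 0 < dat.a (ε, x) * dat.b (ε, x) := mul_pos (Data.a_pos hw) (Data.b_pos hw)
  have hN : dat.F.N (ε, x) = (1 / (dat.a (ε, x) * dat.b (ε, x))) ^ 2 := Data.N_sphere hw hx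
  have hN0 : 0 < dat.F.N (ε, x) := by rw [hN]; positivity
  rw [Fam.sff_eq hw Data.Hsym Data.Ksym hN0 v v hv, hN, Real.sqrt_sq (by positivity), form_G,
    one_div, inv_inv, ← dat.g22_eq]
  have hΓ : ∑ k, ∑ j, v k * v j * ∑ m, x m * dat.F.gam m k j (ε, x) = ΓΓ ((ε, x), v) := rfl
  rw [hΓ]
  unfold ΦG ΦB
  simp only
  ring

theorem counterexample : ∃ (M : Metric 3) (c : ℝ), 1 < c ∧
    (∀ x ∈ ball 3, ∀ v : E 3, v ≠ 0 → 0 < M.Ric x v v) ∧
    (∀ x ∈ sphere 3, ∀ v : E 3, IsTangent x v → v ≠ 0 → c * M.inner x v v < M.II x v v) ∧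
    M.IsSteklovEigenvalue 1 := by
  have h1 := (((ev_R.and ev_G).and ev_B).and (softU dat.isOpen_U Data.zero_mem)).filter_mono
    (nhdsWithin_le_nhds (s := Set.Ioi (0 : ℝ)))
  obtain ⟨ε, ⟨⟨⟨hR, hG⟩, hB⟩, hU⟩, hε⟩ := (h1.and self_mem_nhdsWithin).exists
  have hε0 : 0 < ε := hε
  refine ⟨⟨dat.F.G ε, ?_, ?_, ?_⟩, 1 + ε / 2, by linarith, ?_, ?_, ?_⟩
  · intro x hx i j
    have h2 : ContDiffAt ℝ ∞ (dat.F.H i j) (ε, x) :=
      (dat.F.hH i j).contDiffAt (dat.isOpen_U.mem_nhds (hU x hx))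
    have h3 : ContDiffAt ℝ ∞ (fun y : E 3 => (ε, y)) x := by fun_prop
    exact contDiffAt_const.add (contDiffAt_const.mul (h2.comp x h3))
  · intro x _ i j
    rw [Fam.G_apply, Fam.G_apply, Data.Hsym i j]
    simp only [eq_comm]
  · intro x hx v hv
    obtain ⟨t, ht, w, hw, rfl⟩ := exists_scale hv
    have h2 := hG (x, w) ⟨hx, hw⟩
    rw [← form_G] at h2
    have e := quad_smul (fun i j => dat.F.G ε x i j) t w
    exact lt_of_lt_of_eq (mul_pos (pow_pos ht 2) h2) e.symm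
  · intro x hx v hv
    obtain ⟨t, ht, w, hw, rfl⟩ := exists_scale hv
    have h2 := hR (x, w) ⟨hx, hw⟩
    show 0 < ∑ i, ∑ j, ric (dat.F.G ε) i j x * (t • w) i * (t • w) j
    rw [quad_smul]
    have h3 : ∑ i, ∑ j, ric (dat.F.G ε) i j x * w i * w j = ε * ΦR ((ε, x), w) := by
      unfold ΦR
      simp only [Fam.ric_eq (F := dat.F) (hU x hx), Finset.mul_sum]
      exact Finset.sum_congr rfl fun i _ => Finset.sum_congr rfl fun j _ => by ring
    rw [h3]
    positivity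
  · intro x hx v hvt hv
    obtain ⟨t, ht, w, hw, rfl⟩ := exists_scale hv
    have hwt : IsTangent x w := by
      have h4 : ∑ i, x i * (t • w) i = 0 := hvt
      have h5 : ∑ i, x i * (t • w) i = t * ∑ i, x i * w i := by
        rw [Finset.mul_sum]
        exact Finset.sum_congr rfl fun i _ => by simp only [Pi.smul_apply, smul_eq_mul]; ring
      rw [h5] at h4
      exact (mul_eq_zero.1 h4).resolve_left ht.ne'
    have hxb := sphere_sub hx
    have h2 := hB (x, w) ⟨⟨hx, hw⟩, hwt⟩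
    have h3 := sff_G (hU x hxb) hx hvt
    have h6 : ΦB ((ε, x), t • w) = t ^ 2 * ΦB ((ε, x), w) := by
      unfold ΦB ΓΓ
      simp only [Fin.sum_univ_three, Pi.smul_apply, smul_eq_mul]
      ring
    rw [h6] at h3
    have h7 : 0 < ε * (t ^ 2 * ΦB ((ε, x), w)) := by positivity
    show (1 + ε / 2) * (dat.F.G ε).form x (t • w) (t • w) < sff (dat.F.G ε) x (t • w) (t • w)
    linarith
  · refine ⟨fun y => y 2, fun x _ => by fun_prop, ⟨Pi.single 2 1, ?_, ?_⟩, ?_, ?_⟩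
    · show ∑ i, (Pi.single 2 1 : E 3) i ^ 2 ≤ 1
      simp [Fin.sum_univ_three]
    · simp
    · intro x hx
      exact Data.lap_zero (hU x hx)
    · intro x hx
      exact Data.steklov (hU x (sphere_sub hx)) hx

/-- Sanity check: for the flat metric the second fundamental form of the unit sphere is the
Euclidean scalar product. -/
theorem sff_flat {x : E 3} (hx : x ∈ sphere 3) (v w : E 3) (hw : IsTangent x w) :
    sff (fun _ => (1 : Matrix (Fin 3) (Fin 3) ℝ)) x v w = ∑ i, v i * w i := by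
  have h0 : dat.F.G 0 = fun _ => (1 : Matrix (Fin 3) (Fin 3) ℝ) := by
    funext y
    ext i j
    rw [Fam.G_apply, Matrix.one_apply]; ring
  have hN : dat.F.N (0, x) = 1 := by
    rw [Data.N_sphere (Data.zero_mem x) hx]
    simp [Data.a, Data.b]
  rw [← h0, Fam.sff_eq (Data.zero_mem x) Data.Hsym Data.Ksym (by rw [hN]; exact one_pos) v w hw, hN]
  simp

end Pool.Agent.TH605.Esc
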