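import Pool.Agent.TH605.Esc.SFF

/-!
# The explicit first order data and the kernel checked certificates
-/

namespace Pool.Agent.TH605.Esc

/-- `a₁(P)`. -/
def A1L : P3 :=
  [[[-1097]], [[1048]], [[-364]]]

/-- `q(P)`. -/
def QL : P3 :=
  [[[780]], [[-1565]], [[1316]], [[-412]]]

/-- `a₂(P, Z)`. -/
def A2L : P3 :=
  [[[-55], [-33], [-33]], [[605], [213]], [[-450]]]

/-- `e₁(P, Z)`. -/
def E1L : P3 :=
  [[[-564], [], [231]], [[], [-371]], [[411]]]

/-- `P = x₀² + x₁²`. -/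
noncomputable def Px : P3 := add3 (mul3 X0 X0) (mul3 X1 X1)
/-- `Z = x₂²`. -/
noncomputable def Zx : P3 := mul3 X2 X2
/-- `C = 1 - P - Z`. -/
noncomputable def Cx : P3 := sub3 (sub3 (cst 1) Px) Zx

/-- `a₁` as a polynomial in `x`. -/
noncomputable def a1x : P3 := subst A1L Px (cst 0) (cst 0)
/-- `q` as a polynomial in `x`. -/
noncomputable def qx : P3 := subst QL Px (cst 0) (cst 0)
/-- `C a₂` as a polynomial in `x`. -/
noncomputable def a2x : P3 := mul3 Cx (subst A2L Px Zx Cx)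
/-- `C e₁` as a polynomial in `x`. -/
noncomputable def e1x : P3 := mul3 Cx (subst E1L Px Zx Cx)

/-- `h₀₀ = fL + kL x₀²` etc. -/
noncomputable def fL : P3 := add3 (sub3 (smul3 2 (mul3 Px a1x)) qx) a2x
/-- see `fL`. -/
noncomputable def kL : P3 := sub3 e1x (add3 qx (smul3 2 a1x))
/-- `h₂₂`. -/
noncomputable def sL : P3 := add3 (sub3 (smul3 2 a2x) (mul3 Px qx)) (mul3 Px e1x)

/-- The first order part of the metric. -/
noncomputable def hL (i j : Fin 3) : P3 :=
  (![![add3 fL (mul3 kL (mul3 X0 X0)), mul3 kL (mul3 X0 X1), []],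
     ![mul3 kL (mul3 X0 X1), add3 fL (mul3 kL (mul3 X1 X1)), []],
     ![[], [], sL]] : Fin 3 → Fin 3 → P3) i j

/-- Explicit form of `hL 0 0`. -/
def h00E : P3 :=
  [[[-835, 0, 22, 0, 0, 0, 33], [], [31, 0, -359, 0, -180], [], [-275, 0, 237], [], [134]], [],
  [[881, 0, 205, 0, 51, 0, -231], [], [-517, 0, 103, 0, 140], [], [225, 0, -40], [], [1]], [],
  [[-242, 0, -134, 0, 140], [], [48, 0, -80], [], [3]], [], [[-43, 0, -40], [], [3]], [], [[1]]]

/-- Explicit form of `hL 0 1`. -/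
def h01E : P3 :=
  [[], [[], [850, 0, 564, 0, 231, 0, -231], [], [33, 0, -371, 0, 140], [], [-177, 0, -40], [],
  [1]], [], [[], [33, 0, -371, 0, 140], [], [-354, 0, -80], [], [3]], [], [[], [-177, 0, -40],
  [], [3]], [], [[], [1]]]

/-- Explicit form of `hL 1 1`. -/
def h11E : P3 :=
  [[[-835, 0, 22, 0, 0, 0, 33], [], [881, 0, 205, 0, 51, 0, -231], [], [-242, 0, -134, 0, 140],
  [], [-43, 0, -40], [], [1]], [], [[31, 0, -359, 0, -180], [], [-517, 0, 103, 0, 140], [], [48,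
  0, -80], [], [3]], [], [[-275, 0, 237], [], [225, 0, -40], [], [3]], [], [[134], [], [1]]]

/-- Explicit form of `hL 2 2`. -/
def h22E : P3 :=
  [[[-110, 0, 44, 0, 0, 0, 66], [], [-24, 0, -154, 0, -129, 0, -231], [], [19, 0, 103, 0, 140],
  [], [-5, 0, -40], [], [1]], [], [[-24, 0, -154, 0, -129, 0, -231], [], [38, 0, 206, 0, 280],
  [], [-15, 0, -120], [], [4]], [], [[19, 0, 103, 0, 140], [], [-15, 0, -120], [], [6]], [],
  [[-5, 0, -40], [], [4]], [], [[1]]]

/-- The explicit first order part of the metric. -/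
def hE (i j : Fin 3) : P3 :=
  (![![h00E, h01E, []], ![h01E, h11E, []], ![[], [], h22E]] : Fin 3 → Fin 3 → P3) i j

/-- The coordinates. -/
def XL (i : Fin 3) : P3 := (![X0, X1, X2] : Fin 3 → P3) i

/-- Sum over three indices. -/
noncomputable def sum3 (f : Fin 3 → P3) : P3 := add3 (f 0) (add3 (f 1) (f 2))

/-- Twice the linearised Ricci tensor. -/
noncomputable def RL (i j : Fin 3) : P3 :=
  sum3 fun k => sub3 (sub3 (add3 (d3 k (d3 i (hE j k))) (d3 k (d3 j (hE i k))))
    (d3 k (d3 k (hE i j)))) (d3 j (d3 i (hE k k)))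

/-- Twice the linearisation of `II - (1 + ε/2) g`. -/
noncomputable def BL (i j : Fin 3) : P3 :=
  sub3 (sub3 (if i = j then sub3 (smul3 2 h22E) (cst 1) else []) (smul3 2 (hE i j)))
    (sum3 fun m => mul3 (XL m)
      (sub3 (add3 (d3 i (hE j m)) (d3 j (hE i m))) (d3 m (hE i j))))

/-- Ricci: `2 Ric₀₀ = al + ga x₀²` (in the variables `P, Z, C`). -/
def alL : P3 :=
  [[[0, 0, 0, 1580], [0, 0, 7612], [0, 10934], [4902]], [[0, 0, 9914], [0, 22044], [12580]],
  [[0, 8758], [8102]], [[424]]]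

/-- Ricci: `2 Ric₀₁ = ga x₀ x₁` (in the variables `P, Z, C`). -/
def gaL : P3 :=
  [[[0, 0, -1280], [0, -6156], [934]], [[0, -1698], [-6014]], [[-386]]]

/-- Ricci: `2 Ric₀₂ = de x₀ x₂` (in the variables `P, Z, C`). -/
def deL : P3 :=
  [[[0, 0, 2564], [0, 7492], [3542]], [[0, 2490], [5414]], [[-154]]]

/-- Ricci: `2 Ric₂₂ = ze` (in the variables `P, Z, C`). -/
def zeL : P3 :=
  [[[0, 0, 0, 8], [0, 0, 640], [0, -208], [84]], [[0, 0, 28], [0, 1188], [4386]], [[0, 6],
  [282]], [[2]]]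

/-- boundary form, `mu + nu x₀²` (in the variables `P, Z, C`). -/
def muL : P3 :=
  [[[1449], [88], [], [264]], [[-1748], [-2154], [-1440]], [[-578], [1896]], [[880]]]

/-- boundary form, `nu x₀ x₁` (in the variables `P, Z, C`). -/
def nuL : P3 :=
  [[[-1824], [1436], [1182], [-924]], [[2068], [-1154]], [[-546], [160]], [[-8]]]

/-- boundary form, `ta x₀ x₂` (in the variables `P, Z, C`). -/
def taL : P3 :=
  [[[4], [308], [60], [462]], [[-486], [-616], [826]], [[298], [-320]], [[72]]]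

/-- boundary form, `ka` (in the variables `P, Z, C`). -/
def kaL : P3 :=
  [[[-1], [-88], [], [-396]], [[-48], [], [258], [924]], [[76], [206]], [[-30], [-160]], [[8]]]

/-- Substitution of `P, Z, C`. -/
noncomputable def toX (p : P3) : P3 := subst p Px Zx Cx

/-- The determinant of the Ricci form on the `(ρ, z)` plane, in `P, Z, C`. -/
noncomputable def DL : P3 :=
  sub3 (mul3 (add3 alL (mul3 gaL X0)) zeL) (mul3 (mul3 deL deL) (mul3 X0 X1))

/-- The boundary form in the meridian direction. -/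
noncomputable def bXL : P3 :=
  add3 (mul3 muL X1) (mul3 X0 (add3 (sub3 (mul3 nuL X1) (smul3 2 (mul3 taL X1))) kaL))

/-- `(P + Z + C)ᵏ`. -/
noncomputable def SP : ℕ → P3
  | 0 => cst 1
  | k + 1 => mul3 (add3 X0 (add3 X1 X2)) (SP k)

/-- `(P + Z)ᵏ`. -/
noncomputable def SQ : ℕ → P3
  | 0 => cst 1
  | k + 1 => mul3 (add3 X0 X1) (SQ k)

/-- Homogenise a list in the second variable with `S = P + Z`. -/
noncomputable def hom1 : ℕ → List (List ℤ) → P3
  | _, [] => []
  | n, a :: l => add3 (smul3 (a.headD 0) (SQ n)) (mul3 X1 (hom1 (n - 1) l))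

/-- Homogenise. -/
noncomputable def hom2 : ℕ → P3 → P3
  | _, [] => []
  | n, a :: l => add3 (hom1 n a) (mul3 X0 (hom2 (n - 1) l))

/-- Subdivision tree. -/
def tAl : Tree :=
  .leaf

/-- Subdivision tree. -/
def tZe : Tree :=
  .ab .leaf (.bc .leaf .leaf)

/-- Subdivision tree. -/
def tD : Tree :=
  .ab (.ca (.bc (.ab .leaf (.bc .leaf (.ca (.bc .leaf .leaf) .leaf))) .leaf) (.ab (.ca .leaf
  (.ab (.ca .leaf (.ab (.ca .leaf (.ab .leaf .leaf)) .leaf)) .leaf)) .leaf)) (.bc .leaf (.ca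
  .leaf (.ab (.ca (.bc .leaf (.ca .leaf .leaf)) .leaf) (.bc .leaf (.ca .leaf .leaf)))))

/-- Subdivision tree. -/
def tMu : Tree :=
  .ab (.ab (.ab .leaf .leaf) .leaf) .leaf

/-- Subdivision tree. -/
def tBX : Tree :=
  .ab (.ab (.ab (.ab .leaf .leaf) .leaf) (.ab .leaf (.ab .leaf .leaf))) .leaf

theorem c_h : ∀ i j : Fin 3, eq3 (hL i j) (hE i j) = true := by
  decide +kernel

theorem c_R00 : eq3 (RL 0 0) (add3 (toX alL) (mul3 (toX gaL) (mul3 X0 X0))) = true := by
  decide +kernel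

theorem c_R01 : eq3 (RL 0 1) (mul3 (toX gaL) (mul3 X0 X1)) = true := by
  decide +kernel

theorem c_R02 : eq3 (RL 0 2) (mul3 (toX deL) (mul3 X0 X2)) = true := by
  decide +kernel

theorem c_R10 : eq3 (RL 1 0) (mul3 (toX gaL) (mul3 X0 X1)) = true := by
  decide +kernel

theorem c_R11 : eq3 (RL 1 1) (add3 (toX alL) (mul3 (toX gaL) (mul3 X1 X1))) = true := by
  decide +kernel

theorem c_R12 : eq3 (RL 1 2) (mul3 (toX deL) (mul3 X1 X2)) = true := by
  decide +kernel

theorem c_R20 : eq3 (RL 2 0) (mul3 (toX deL) (mul3 X0 X2)) = true := by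
  decide +kernel

theorem c_R21 : eq3 (RL 2 1) (mul3 (toX deL) (mul3 X1 X2)) = true := by
  decide +kernel

theorem c_R22 : eq3 (RL 2 2) (toX zeL) = true := by
  decide +kernel

theorem c_B00 : eq3 (BL 0 0) (add3 (toX muL) (mul3 (toX nuL) (mul3 X0 X0))) = true := by
  decide +kernel

theorem c_B01 : eq3 (BL 0 1) (mul3 (toX nuL) (mul3 X0 X1)) = true := by
  decide +kernel

theorem c_B02 : eq3 (BL 0 2) (mul3 (toX taL) (mul3 X0 X2)) = true := by
  decide +kernel

theorem c_B10 : eq3 (BL 1 0) (mul3 (toX nuL) (mul3 X0 X1)) = true := by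
  decide +kernel

theorem c_B11 : eq3 (BL 1 1) (add3 (toX muL) (mul3 (toX nuL) (mul3 X1 X1))) = true := by
  decide +kernel

theorem c_B12 : eq3 (BL 1 2) (mul3 (toX taL) (mul3 X1 X2)) = true := by
  decide +kernel

theorem c_B20 : eq3 (BL 2 0) (mul3 (toX taL) (mul3 X0 X2)) = true := by
  decide +kernel

theorem c_B21 : eq3 (BL 2 1) (mul3 (toX taL) (mul3 X1 X2)) = true := by
  decide +kernel

theorem c_B22 : eq3 (BL 2 2) (toX kaL) = true := by
  decide +kernel

theorem c_al : check tAl (sub3 alL (SP 3)) = true := by decide +kernel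

theorem c_ze : check tZe (sub3 zeL (SP 3)) = true := by decide +kernel

theorem c_D : check tD (sub3 DL (SP 6)) = true := by decide +kernel

theorem c_mu : check tMu (sub3 (smul3 10 (hom2 3 muL)) (SQ 3)) = true := by decide +kernel

theorem c_bX : check tBX (sub3 (smul3 10 (hom2 5 bXL)) (SQ 5)) = true := by decide +kernel

end Pool.Agent.TH605.Esc
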