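import Pool.Agent.TH605.Esc.SFF

/-!
# An exact family of metrics for which `x₂` is a Steklov eigenfunction with eigenvalue `1`
-/

namespace Pool.Agent.TH605.Esc

open scoped ContDiff Topology

/-- Data: two functions of `P = x₀² + x₁²` and two functions of `x`. -/
structure Data where
  A1 : ℝ → ℝ
  Q : ℝ → ℝ
  A2 : E 3 → ℝ
  E1 : E 3 → ℝ
  hA1 : ContDiff ℝ ∞ A1
  hQ : ContDiff ℝ ∞ Q
  hA2 : ContDiff ℝ ∞ A2
  hE1 : ContDiff ℝ ∞ E1

namespace Data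

variable (d : Data)

/-- `P = x₀² + x₁²`. -/
def P (w : ℝ × E 3) : ℝ := w.2 0 ^ 2 + w.2 1 ^ 2
/-- `C = 1 - |x|²`. -/
def C (w : ℝ × E 3) : ℝ := 1 - (w.2 0 ^ 2 + w.2 1 ^ 2) - w.2 2 ^ 2
/-- `1 + ε P a₁`. -/
noncomputable def m (w : ℝ × E 3) : ℝ := 1 + w.1 * (P w * d.A1 (P w))
/-- `1 + ε (1 - P) q`. -/
noncomputable def nn (w : ℝ × E 3) : ℝ := 1 + w.1 * ((1 - P w) * d.Q (P w))
/-- `A`. -/
noncomputable def A (w : ℝ × E 3) : ℝ := P w * d.A1 (P w) + C w * d.A2 w.2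
/-- `a = 1 + ε A`. -/
noncomputable def a (w : ℝ × E 3) : ℝ := 1 + w.1 * d.A w
/-- `β`. -/
noncomputable def β (w : ℝ × E 3) : ℝ :=
  -(d.Q (P w) + 2 * d.A1 (P w) + w.1 * (P w * d.A1 (P w) ^ 2)) / d.m w + C w * d.E1 w.2
/-- `B = A + P β`. -/
noncomputable def B (w : ℝ × E 3) : ℝ := d.A w + P w * d.β w
/-- `b = 1 + ε B`. -/
noncomputable def b (w : ℝ × E 3) : ℝ := 1 + w.1 * d.B w
/-- `(u - 1) / ε`. -/
noncomputable def V (w : ℝ × E 3) : ℝ :=
  (P w * d.A1 (P w) - d.Q (P w) - w.1 * (P w ^ 2 * d.A1 (P w) * d.Q (P w))) / d.nn w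
/-- `u`. -/
noncomputable def u (w : ℝ × E 3) : ℝ := 1 + w.1 * d.V w

theorem cP : ContDiff ℝ ∞ P := by unfold P; fun_prop
theorem cC : ContDiff ℝ ∞ C := by unfold C; fun_prop
theorem cA1 : ContDiff ℝ ∞ fun w => d.A1 (P w) := d.hA1.comp cP
theorem cQ : ContDiff ℝ ∞ fun w => d.Q (P w) := d.hQ.comp cP
theorem cA2 : ContDiff ℝ ∞ fun w : ℝ × E 3 => d.A2 w.2 := d.hA2.comp contDiff_snd
theorem cE1 : ContDiff ℝ ∞ fun w : ℝ × E 3 => d.E1 w.2 := d.hE1.comp contDiff_snd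

theorem cm : ContDiff ℝ ∞ d.m := by
  have h1 := cP; have h2 := d.cA1
  unfold m; fun_prop

theorem cnn : ContDiff ℝ ∞ d.nn := by
  have h1 := cP; have h2 := d.cQ
  unfold nn; fun_prop

theorem cA : ContDiff ℝ ∞ d.A := by
  have h1 := cP; have h2 := d.cA1; have h3 := cC; have h4 := d.cA2
  unfold A; fun_prop

theorem ca : ContDiff ℝ ∞ d.a := by
  have h1 := d.cA
  unfold a; fun_prop

/-- The set where the denominators and `a` are positive. -/
def U0 : Set (ℝ × E 3) := {w | 0 < d.m w} ∩ {w | 0 < d.nn w} ∩ {w | 0 < d.a w}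

theorem isOpen_U0 : IsOpen d.U0 :=
  ((isOpen_lt continuous_const d.cm.continuous).inter
    (isOpen_lt continuous_const d.cnn.continuous)).inter
    (isOpen_lt continuous_const d.ca.continuous)

theorem cβ : ContDiffOn ℝ ∞ d.β d.U0 := by
  have h1 := cP; have h2 := d.cA1; have h3 := cC; have h4 := d.cE1; have h5 := d.cQ
  unfold β
  refine ContDiffOn.add (ContDiffOn.div ?_ d.cm.contDiffOn fun w hw => hw.1.1.ne') ?_
  · exact ContDiff.contDiffOn (by fun_prop)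
  · exact ContDiff.contDiffOn (by fun_prop)

theorem cB : ContDiffOn ℝ ∞ d.B d.U0 := by
  unfold B
  exact d.cA.contDiffOn.add (cP.contDiffOn.mul d.cβ)

theorem cb : ContDiffOn ℝ ∞ d.b d.U0 := by
  unfold b
  exact contDiffOn_const.add (contDiffOn_fst.mul d.cB)

theorem cV : ContDiffOn ℝ ∞ d.V d.U0 := by
  have h1 := cP; have h2 := d.cA1; have h5 := d.cQ
  unfold V
  refine ContDiffOn.div ?_ d.cnn.contDiffOn fun w hw => hw.1.2.ne'
  exact ContDiff.contDiffOn (by fun_prop)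

theorem cu : ContDiffOn ℝ ∞ d.u d.U0 := by
  unfold u
  exact contDiffOn_const.add (contDiffOn_fst.mul d.cV)

/-- The domain of the family. -/
def U : Set (ℝ × E 3) := (d.U0 ∩ d.b ⁻¹' Set.Ioi 0) ∩ (d.U0 ∩ d.u ⁻¹' Set.Ioi 0)

theorem isOpen_U : IsOpen d.U :=
  (d.cb.continuousOn.isOpen_inter_preimage d.isOpen_U0 isOpen_Ioi).inter
    (d.cu.continuousOn.isOpen_inter_preimage d.isOpen_U0 isOpen_Ioi)

theorem U_sub : d.U ⊆ d.U0 := fun _ h => h.1.1

variable {d}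

theorem m_pos {w : ℝ × E 3} (h : w ∈ d.U) : 0 < d.m w := h.1.1.1.1
theorem nn_pos {w : ℝ × E 3} (h : w ∈ d.U) : 0 < d.nn w := h.1.1.1.2
theorem a_pos {w : ℝ × E 3} (h : w ∈ d.U) : 0 < d.a w := h.1.1.2
theorem b_pos {w : ℝ × E 3} (h : w ∈ d.U) : 0 < d.b w := h.1.2
theorem u_pos {w : ℝ × E 3} (h : w ∈ d.U) : 0 < d.u w := h.2.2

theorem zero_mem (x : E 3) : ((0 : ℝ), x) ∈ d.U := by
  simp [U, U0, m, nn, a, b, u]

variable (d)

/-- `h₀₀`. -/
noncomputable def H00 (w : ℝ × E 3) : ℝ :=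
  d.A w + d.V w + w.1 * (d.A w * d.V w) + d.u w * d.β w * w.2 0 ^ 2
/-- `h₀₁`. -/
noncomputable def H01 (w : ℝ × E 3) : ℝ := d.u w * d.β w * (w.2 0 * w.2 1)
/-- `h₁₁`. -/
noncomputable def H11 (w : ℝ × E 3) : ℝ :=
  d.A w + d.V w + w.1 * (d.A w * d.V w) + d.u w * d.β w * w.2 1 ^ 2
/-- `h₂₂`. -/
noncomputable def H22 (w : ℝ × E 3) : ℝ := d.A w + d.B w + w.1 * (d.A w * d.B w)

theorem cx (i : Fin 3) : ContDiff ℝ ∞ fun w : ℝ × E 3 => w.2 i := by fun_prop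

theorem cH00 : ContDiffOn ℝ ∞ d.H00 d.U0 := by
  unfold H00
  exact ((d.cA.contDiffOn.add d.cV).add (contDiffOn_fst.mul (d.cA.contDiffOn.mul d.cV))).add
    ((d.cu.mul d.cβ).mul ((cx 0).contDiffOn.pow 2))

theorem cH01 : ContDiffOn ℝ ∞ d.H01 d.U0 := by
  unfold H01
  exact (d.cu.mul d.cβ).mul ((cx 0).contDiffOn.mul (cx 1).contDiffOn)

theorem cH11 : ContDiffOn ℝ ∞ d.H11 d.U0 := by
  unfold H11
  exact ((d.cA.contDiffOn.add d.cV).add (contDiffOn_fst.mul (d.cA.contDiffOn.mul d.cV))).add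
    ((d.cu.mul d.cβ).mul ((cx 1).contDiffOn.pow 2))

theorem cH22 : ContDiffOn ℝ ∞ d.H22 d.U0 := by
  unfold H22
  exact (d.cA.contDiffOn.add d.cB).add (contDiffOn_fst.mul (d.cA.contDiffOn.mul d.cB))

/-- The coefficients `h_ij`. -/
noncomputable def H (i j : Fin 3) (w : ℝ × E 3) : ℝ :=
  (![![d.H00 w, d.H01 w, 0], ![d.H01 w, d.H11 w, 0], ![0, 0, d.H22 w]] : Fin 3 → Fin 3 → ℝ) i j

/-- The inverse metric. -/
noncomputable def K (i j : Fin 3) (w : ℝ × E 3) : ℝ :=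
  (![![(1 + w.1 * d.H11 w) / (d.a w * d.b w * d.u w ^ 2),
      -(w.1 * d.H01 w) / (d.a w * d.b w * d.u w ^ 2), 0],
    ![-(w.1 * d.H01 w) / (d.a w * d.b w * d.u w ^ 2),
      (1 + w.1 * d.H00 w) / (d.a w * d.b w * d.u w ^ 2), 0],
    ![0, 0, 1 / (d.a w * d.b w)]] : Fin 3 → Fin 3 → ℝ) i j

theorem det_eq (w : ℝ × E 3) :
    (1 + w.1 * d.H00 w) * (1 + w.1 * d.H11 w) - (w.1 * d.H01 w) ^ 2 =
      d.a w * d.b w * d.u w ^ 2 := by
  have hb : d.b w = d.a w + w.1 * (P w * d.β w) := by unfold b a B; ring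
  rw [hb]
  unfold H00 H11 H01 u a P
  ring

theorem g22_eq (w : ℝ × E 3) : 1 + w.1 * d.H22 w = d.a w * d.b w := by
  unfold H22 a b; ring

/-- The family. -/
noncomputable def F : Fam 3 where
  U := d.U
  hU := d.isOpen_U
  H := d.H
  K := d.K
  hH i j := by
    have h00 := d.cH00.mono d.U_sub
    have h01 := d.cH01.mono d.U_sub
    have h11 := d.cH11.mono d.U_sub
    have h22 := d.cH22.mono d.U_sub
    fin_cases i <;> fin_cases j <;> simp <;>
      first | exact h00 | exact h01 | exact h11 | exact h22 | exact contDiffOn_const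
  hK i j := by
    have h00 := d.cH00.mono d.U_sub
    have h01 := d.cH01.mono d.U_sub
    have h11 := d.cH11.mono d.U_sub
    have ha : ContDiffOn ℝ ∞ d.a d.U := d.ca.contDiffOn
    have hb := d.cb.mono d.U_sub
    have hu := d.cu.mono d.U_sub
    have hD : ContDiffOn ℝ ∞ (fun w => d.a w * d.b w * d.u w ^ 2) d.U :=
      (ha.mul hb).mul (hu.pow 2)
    have hD0 : ∀ w ∈ d.U, d.a w * d.b w * d.u w ^ 2 ≠ 0 := fun w hw =>
      (mul_pos (mul_pos (a_pos hw) (b_pos hw)) (pow_pos (u_pos hw) 2)).ne'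
    have h1 : ContDiffOn ℝ ∞ (fun w => (1 + w.1 * d.H11 w) / (d.a w * d.b w * d.u w ^ 2)) d.U :=
      (contDiffOn_const.add (contDiffOn_fst.mul h11)).div hD hD0
    have h2 : ContDiffOn ℝ ∞ (fun w => (1 + w.1 * d.H00 w) / (d.a w * d.b w * d.u w ^ 2)) d.U :=
      (contDiffOn_const.add (contDiffOn_fst.mul h00)).div hD hD0
    have h3 : ContDiffOn ℝ ∞ (fun w => -(w.1 * d.H01 w) / (d.a w * d.b w * d.u w ^ 2)) d.U :=
      (contDiffOn_fst.mul h01).neg.div hD hD0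
    have h4 : ContDiffOn ℝ ∞ (fun w => 1 / (d.a w * d.b w)) d.U :=
      contDiffOn_const.div (ha.mul hb) fun w hw => (mul_pos (a_pos hw) (b_pos hw)).ne'
    fin_cases i <;> fin_cases j <;> simp only <;>
      first | exact h1 | exact h2 | exact h3 | exact h4 | exact contDiffOn_const
  inv w hw i j := by
    have ha := (a_pos hw).ne'
    have hb := (b_pos hw).ne'
    have hu := (u_pos hw).ne'
    have e1 := d.det_eq w
    have e2 := d.g22_eq w
    fin_cases i <;> fin_cases j <;>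
      simp [H, K, Fin.sum_univ_three] <;> field_simp <;>
      first | linear_combination e1 | linear_combination e2 | ring

end Data

end Pool.Agent.TH605.Esc
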