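import Pool.Agent.TH605.Esc.Ex

/-!
# `x₂` is harmonic and satisfies the Steklov condition with eigenvalue `1`
-/

namespace Pool.Agent.TH605.Esc

open scoped ContDiff Topology

namespace Data

variable {d : Data}

theorem Hsym (i j : Fin 3) : d.F.H i j = d.F.H j i := by
  funext w
  show d.H i j w = d.H j i w
  fin_cases i <;> fin_cases j <;> rfl

theorem Ksym (i j : Fin 3) : d.F.K i j = d.F.K j i := by
  funext w
  show d.K i j w = d.K j i w
  fin_cases i <;> fin_cases j <;> rfl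

theorem u_nn {w : ℝ × E 3} (hw : w ∈ d.U) :
    d.u w * d.nn w = d.m w * (1 - w.1 * (P w * d.Q (P w))) := by
  have h := (nn_pos hw).ne'
  have e : d.V w * d.nn w = P w * d.A1 (P w) - d.Q (P w) -
      w.1 * (P w ^ 2 * d.A1 (P w) * d.Q (P w)) := by
    unfold V; field_simp
  have : d.u w * d.nn w = d.nn w + w.1 * (d.V w * d.nn w) := by unfold u; ring
  rw [this, e]
  unfold nn m
  ring

theorem C_sphere {w : ℝ × E 3} (hx : w.2 ∈ sphere 3) : C w = 0 := by
  have : ∑ i, w.2 i ^ 2 = 1 := hx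
  rw [Fin.sum_univ_three] at this
  unfold C; linarith

theorem a_sphere {w : ℝ × E 3} (hx : w.2 ∈ sphere 3) : d.a w = d.m w := by
  unfold a m A; rw [C_sphere hx]; ring

theorem ab_sphere {w : ℝ × E 3} (hw : w ∈ d.U) (hx : w.2 ∈ sphere 3) :
    d.a w * d.b w = 1 - w.1 * (P w * d.Q (P w)) := by
  have hm := (m_pos hw).ne'
  have e : d.m w * d.β w = -(d.Q (P w) + 2 * d.A1 (P w) + w.1 * (P w * d.A1 (P w) ^ 2)) := by
    unfold β; rw [C_sphere hx]; field_simp; ring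
  have hb : d.b w = d.a w + w.1 * (P w * d.β w) := by unfold b a B; ring
  rw [hb, a_sphere hx]
  have : d.m w * (d.m w + w.1 * (P w * d.β w)) =
      d.m w ^ 2 + w.1 * P w * (d.m w * d.β w) := by ring
  rw [this, e]
  unfold m
  ring

theorem N_sphere {w : ℝ × E 3} (hw : w ∈ d.U) (hx : w.2 ∈ sphere 3) :
    d.F.N w = (1 / (d.a w * d.b w)) ^ 2 := by
  have ha := (a_pos hw).ne'
  have hb := (b_pos hw).ne'
  have hu := (u_pos hw).ne'
  have hn := (nn_pos hw).ne'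
  have e0 : d.F.N w = ((1 + w.1 * d.H11 w) * w.2 0 ^ 2 - 2 * (w.1 * d.H01 w) * (w.2 0 * w.2 1) +
      (1 + w.1 * d.H00 w) * w.2 1 ^ 2) / (d.a w * d.b w * d.u w ^ 2) +
      w.2 2 ^ 2 / (d.a w * d.b w) := by
    show ∑ k, ∑ l, d.K k l w * w.2 k * w.2 l = _
    simp only [Fin.sum_univ_three, K, Matrix.cons_val_zero, Matrix.cons_val_one, Matrix.cons_val]
    field_simp
    ring
  have e1 : (1 + w.1 * d.H11 w) * w.2 0 ^ 2 - 2 * (w.1 * d.H01 w) * (w.2 0 * w.2 1) +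
      (1 + w.1 * d.H00 w) * w.2 1 ^ 2 = d.a w * d.u w * P w := by
    unfold H11 H01 H00 a u P
    ring
  have e2 := u_nn hw
  have e3 := ab_sphere hw hx
  have e4 := a_sphere (d := d) hx
  rw [← e4, ← e3] at e2
  have e5 : w.2 2 ^ 2 = 1 - P w := by
    have := C_sphere hx
    unfold C at this; unfold P; linarith
  rw [e0, e1, e5]
  have e6 : d.a w * d.u w * P w / (d.a w * d.b w * d.u w ^ 2) =
      P w * d.nn w / (d.a w * d.b w) ^ 2 := by
    field_simp
    linear_combination (-P w) * e2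
  have e7 : (1 - P w) / (d.a w * d.b w) = (1 - P w) * (d.a w * d.b w) / (d.a w * d.b w) ^ 2 := by
    field_simp
  rw [e6, e7, ← add_div, one_div, inv_pow, ← one_div]
  congr 1
  rw [e3]
  unfold nn
  ring

theorem pd_u {ε : ℝ} {x : E 3} (hw : (ε, x) ∈ d.U) : pd 2 (fun y => d.u (ε, y)) x = 0 := by
  have hd : DifferentiableAt ℝ (fun y => d.u (ε, y)) x := by
    refine differentiableAt_slice ?_
    exact ((d.cu.contDiffAt (d.isOpen_U0.mem_nhds (d.U_sub hw)))).differentiableAt (by simp)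
  unfold pd
  rw [← hd.lineDeriv_eq_fderiv, lineDeriv]
  have : (fun t : ℝ => d.u (ε, x + t • (Pi.single 2 1 : E 3))) = fun _ => d.u (ε, x) := by
    funext t
    have hP : P (ε, x + t • (Pi.single 2 1 : E 3)) = P (ε, x) := by
      simp [P]
    unfold u V nn
    simp only [hP]
  rw [this, deriv_const]

theorem lap_zero {ε : ℝ} {x : E 3} (hw : (ε, x) ∈ d.U) :
    lap (d.F.G ε) (fun y => y 2) x = 0 := by
  have hwF : (ε, x) ∈ d.F.U := hw
  have ha := (a_pos hw).ne'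
  have hb := (b_pos hw).ne'
  have hu := (u_pos hw).ne'
  have hpd : ∀ j, pd j (fun y : E 3 => y 2) = fun _ => if j = 2 then 1 else 0 := by
    intro j; funext y; exact pd_coord 2
  unfold lap
  simp only [hpd, pd_const, Fam.G_inv hwF]
  have hG02 : ∀ m, pd m (fun y => d.F.G ε y 0 2) x = 0 := by
    intro m
    have : (fun y => d.F.G ε y 0 2) = fun _ => 0 + ε * 0 := rfl
    rw [this, pd_const]
  have hG20 : ∀ m, pd m (fun y => d.F.G ε y 2 0) x = 0 := by
    intro m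
    have : (fun y => d.F.G ε y 2 0) = fun _ => 0 + ε * 0 := rfl
    rw [this, pd_const]
  have hG12 : ∀ m, pd m (fun y => d.F.G ε y 1 2) x = 0 := by
    intro m
    have : (fun y => d.F.G ε y 1 2) = fun _ => 0 + ε * 0 := rfl
    rw [this, pd_const]
  have hG21 : ∀ m, pd m (fun y => d.F.G ε y 2 1) x = 0 := by
    intro m
    have : (fun y => d.F.G ε y 2 1) = fun _ => 0 + ε * 0 := rfl
    rw [this, pd_const]
  have hG10 : ∀ m, pd m (fun y => d.F.G ε y 1 0) x = pd m (fun y => d.F.G ε y 0 1) x :=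
    fun m => rfl
  have hdiff : ∀ i j, DifferentiableAt ℝ (fun y => d.F.G ε y i j) x := by
    intro i j
    have h1 := differentiableAt_slice (Fam.diffH hwF i j)
    exact (differentiableAt_const _).add (h1.const_mul ε)
  have hdu : DifferentiableAt ℝ (fun y => d.u (ε, y)) x := by
    refine differentiableAt_slice ?_
    exact ((d.cu.contDiffAt (d.isOpen_U0.mem_nhds (d.U_sub hw)))).differentiableAt (by simp)
  -- the derivative of the determinant
  have hdet : (fun y => d.F.G ε y 0 0 * d.F.G ε y 1 1 - d.F.G ε y 0 1 * d.F.G ε y 0 1) =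
      fun y => d.F.G ε y 2 2 * (d.u (ε, y) * d.u (ε, y)) := by
    funext y
    have e1 := d.det_eq (ε, y)
    have e2 := d.g22_eq (ε, y)
    have g00 : d.F.G ε y 0 0 = 1 + ε * d.H00 (ε, y) := rfl
    have g11 : d.F.G ε y 1 1 = 1 + ε * d.H11 (ε, y) := rfl
    have g01 : d.F.G ε y 0 1 = 0 + ε * d.H01 (ε, y) := rfl
    have g22 : d.F.G ε y 2 2 = 1 + ε * d.H22 (ε, y) := rfl
    simp only at e1 e2
    rw [g00, g11, g01, g22]
    linear_combination e1 - d.u (ε, y) ^ 2 * e2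
  have hder : pd 2 (fun y => d.F.G ε y 0 0 * d.F.G ε y 1 1 - d.F.G ε y 0 1 * d.F.G ε y 0 1) x =
      pd 2 (fun y => d.F.G ε y 2 2 * (d.u (ε, y) * d.u (ε, y))) x := by rw [hdet]
  have m1 : DifferentiableAt ℝ (fun y => d.F.G ε y 0 0 * d.F.G ε y 1 1) x :=
    (hdiff 0 0).mul (hdiff 1 1)
  have m2 : DifferentiableAt ℝ (fun y => d.F.G ε y 0 1 * d.F.G ε y 0 1) x :=
    (hdiff 0 1).mul (hdiff 0 1)
  have m3 : DifferentiableAt ℝ (fun y => d.u (ε, y) * d.u (ε, y)) x := hdu.mul hdu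
  rw [pd_sub m1 m2, pd_mul (hdiff 0 0) (hdiff 1 1), pd_mul (hdiff 0 1) (hdiff 0 1),
    pd_mul (hdiff 2 2) m3, pd_mul hdu hdu, pd_u hw] at hder
  have g00 : d.F.G ε x 0 0 = 1 + ε * d.H00 (ε, x) := rfl
  have g11 : d.F.G ε x 1 1 = 1 + ε * d.H11 (ε, x) := rfl
  have g01 : d.F.G ε x 0 1 = 0 + ε * d.H01 (ε, x) := rfl
  rw [g00, g11, g01] at hder
  have k00 : d.F.K 0 0 (ε, x) = (1 + ε * d.H11 (ε, x)) /
    (d.a (ε, x) * d.b (ε, x) * d.u (ε, x) ^ 2) := rfl
  have k11 : d.F.K 1 1 (ε, x) = (1 + ε * d.H00 (ε, x)) /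
    (d.a (ε, x) * d.b (ε, x) * d.u (ε, x) ^ 2) := rfl
  have k01 : d.F.K 0 1 (ε, x) = -(ε * d.H01 (ε, x)) /
    (d.a (ε, x) * d.b (ε, x) * d.u (ε, x) ^ 2) := rfl
  have k10 : d.F.K 1 0 (ε, x) = -(ε * d.H01 (ε, x)) /
    (d.a (ε, x) * d.b (ε, x) * d.u (ε, x) ^ 2) := rfl
  have k22 : d.F.K 2 2 (ε, x) = 1 / (d.a (ε, x) * d.b (ε, x)) := rfl
  have k02 : d.F.K 0 2 (ε, x) = 0 := rfl
  have k20 : d.F.K 2 0 (ε, x) = 0 := rfl
  have k12 : d.F.K 1 2 (ε, x) = 0 := rfl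
  have k21 : d.F.K 2 1 (ε, x) = 0 := rfl
  unfold chr
  simp only [Fam.G_inv hwF, Fin.sum_univ_three, k02, k20, k12, k21, hG02, hG20, hG12, hG21, hG10]
  simp only [k00, k11, k01, k10, k22]
  simp only [show (0 : Fin 3) ≠ 2 by decide, show (1 : Fin 3) ≠ 2 by decide, if_false, if_true]
  set g00' := pd 2 (fun y => d.F.G ε y 0 0) x
  set g01' := pd 2 (fun y => d.F.G ε y 0 1) x
  set g11' := pd 2 (fun y => d.F.G ε y 1 1) x
  set g22' := pd 2 (fun y => d.F.G ε y 2 2) x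
  field_simp
  linear_combination (d.u (ε, x)) ^ 2 * hder

theorem steklov {ε : ℝ} {x : E 3} (hw : (ε, x) ∈ d.U) (hx : x ∈ sphere 3) :
    ∑ i, normal (d.F.G ε) x i * pd i (fun y : E 3 => y 2) x = 1 * x 2 := by
  have hwF : (ε, x) ∈ d.F.U := hw
  have hab : 0 < d.a (ε, x) * d.b (ε, x) := mul_pos (a_pos hw) (b_pos hw)
  simp only [pd_coord, Fin.sum_univ_three, show (0 : Fin 3) ≠ 2 by decide,
    show (1 : Fin 3) ≠ 2 by decide, if_false, if_true, mul_zero, zero_add, mul_one, one_mul]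
  rw [Fam.normal_eq hwF, N_sphere hw hx, Real.sqrt_sq (by positivity)]
  have k22 : d.F.K 2 2 (ε, x) = 1 / (d.a (ε, x) * d.b (ε, x)) := rfl
  have k20 : d.F.K 2 0 (ε, x) = 0 := rfl
  have k21 : d.F.K 2 1 (ε, x) = 0 := rfl
  rw [Fin.sum_univ_three, k20, k21, k22]
  have ha := (a_pos hw).ne'
  have hb := (b_pos hw).ne'
  field_simp
  ring

end Data

end Pool.Agent.TH605.Esc
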