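import Pool.Agent.TH605.Esc.Poly

/-!
# Ricci curvature of a family of metrics `δ + ε H(ε, x)`
-/

namespace Pool.Agent.TH605.Esc

open scoped ContDiff Topology

variable {n : ℕ}

/-- Spatial partial derivative of a function on `ℝ × ℝⁿ`. -/
noncomputable def D (k : Fin n) (F : ℝ × E n → ℝ) (w : ℝ × E n) : ℝ :=
  fderiv ℝ F w (0, Pi.single k 1)

theorem hasFDerivAt_slice (ε : ℝ) (x : E n) :
    HasFDerivAt (fun y : E n => (ε, y)) (ContinuousLinearMap.inr ℝ ℝ (E n)) x :=
  hasFDerivAt_prodMk_right ε x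

theorem pd_slice {F : ℝ × E n → ℝ} {ε : ℝ} {x : E n} {k : Fin n}
    (h : DifferentiableAt ℝ F (ε, x)) : pd k (fun y => F (ε, y)) x = D k F (ε, x) := by
  unfold pd D
  have h1 : HasFDerivAt (fun y => F (ε, y))
      ((fderiv ℝ F (ε, x)).comp (ContinuousLinearMap.inr ℝ ℝ (E n))) x :=
    HasFDerivAt.comp x h.hasFDerivAt (hasFDerivAt_slice ε x)
  rw [h1.fderiv]
  simp

theorem differentiableAt_slice {F : ℝ × E n → ℝ} {ε : ℝ} {x : E n}
    (h : DifferentiableAt ℝ F (ε, x)) : DifferentiableAt ℝ (fun y => F (ε, y)) x :=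
  (HasFDerivAt.comp x h.hasFDerivAt (hasFDerivAt_slice ε x)).differentiableAt

theorem contDiffOn_D {U : Set (ℝ × E n)} (hU : IsOpen U) {F : ℝ × E n → ℝ}
    (hF : ContDiffOn ℝ ∞ F U) (k : Fin n) : ContDiffOn ℝ ∞ (D k F) U := by
  have h1 : ContDiffOn ℝ ∞ (fderiv ℝ F) U := hF.fderiv_of_isOpen hU (by simp)
  exact h1.clm_apply contDiffOn_const

/-- A family of metrics `δ + ε H` with inverse `K`, smooth on an open set `U`. -/
structure Fam (n : ℕ) where
  U : Set (ℝ × E n)
  hU : IsOpen U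
  H : Fin n → Fin n → ℝ × E n → ℝ
  K : Fin n → Fin n → ℝ × E n → ℝ
  hH : ∀ i j, ContDiffOn ℝ ∞ (H i j) U
  hK : ∀ i j, ContDiffOn ℝ ∞ (K i j) U
  inv : ∀ w ∈ U, ∀ i j, ∑ l, ((if i = l then 1 else 0) + w.1 * H i l w) * K l j w =
    if i = j then 1 else 0

namespace Fam

variable (F : Fam n)

/-- The metric. -/
noncomputable def G (ε : ℝ) : MatFun n := fun x =>
  Matrix.of fun i j => (if i = j then 1 else 0) + ε * F.H i j (ε, x)

theorem G_apply (ε : ℝ) (x : E n) (i j : Fin n) :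
    F.G ε x i j = (if i = j then 1 else 0) + ε * F.H i j (ε, x) := rfl

variable {F}

theorem diffH {w : ℝ × E n} (hw : w ∈ F.U) (i j : Fin n) : DifferentiableAt ℝ (F.H i j) w :=
  ((F.hH i j).contDiffAt (F.hU.mem_nhds hw)).differentiableAt (by simp)

theorem G_inv {ε : ℝ} {x : E n} (hw : (ε, x) ∈ F.U) (k l : Fin n) :
    (F.G ε x)⁻¹ k l = F.K k l (ε, x) := by
  have h : F.G ε x * Matrix.of (fun i j => F.K i j (ε, x)) = 1 := by
    ext i j
    rw [Matrix.mul_apply]
    have := F.inv _ hw i j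
    simp only [G_apply, Matrix.of_apply]
    rw [this, Matrix.one_apply]
  rw [Matrix.inv_eq_right_inv h]; rfl

theorem pd_G {ε : ℝ} {x : E n} (hw : (ε, x) ∈ F.U) (m i j : Fin n) :
    pd m (fun y => F.G ε y i j) x = ε * D m (F.H i j) (ε, x) := by
  have h1 := differentiableAt_slice (diffH hw i j)
  have e : (fun y => F.G ε y i j) =
      fun y => (if i = j then (1 : ℝ) else 0) + ε * F.H i j (ε, y) := rfl
  rw [e, pd_add (differentiableAt_const _) (h1.const_mul ε), pd_const, pd_const_mul ε h1,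
    pd_slice (diffH hw i j)]
  ring

variable (F)

/-- The Christoffel symbols divided by `ε`. -/
noncomputable def gam (k i j : Fin n) (w : ℝ × E n) : ℝ :=
  (1 / 2) * ∑ l, F.K k l w * (D i (F.H j l) w + D j (F.H i l) w - D l (F.H i j) w)

/-- The Ricci tensor divided by `ε`. -/
noncomputable def rt (i j : Fin n) (w : ℝ × E n) : ℝ :=
  ∑ k, (D k (F.gam k i j) w - D j (F.gam k i k) w) +
    w.1 * ∑ k, ∑ l, (F.gam k k l w * F.gam l i j w - F.gam k j l w * F.gam l i k w)

variable {F}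

theorem contDiffOn_gam (k i j : Fin n) : ContDiffOn ℝ ∞ (F.gam k i j) F.U := by
  unfold gam
  refine contDiffOn_const.mul (ContDiffOn.sum fun l _ => ?_)
  exact (F.hK k l).mul (((contDiffOn_D F.hU (F.hH j l) i).add
    (contDiffOn_D F.hU (F.hH i l) j)).sub (contDiffOn_D F.hU (F.hH i j) l))

theorem diff_gam {w : ℝ × E n} (hw : w ∈ F.U) (k i j : Fin n) :
    DifferentiableAt ℝ (F.gam k i j) w :=
  ((contDiffOn_gam k i j).contDiffAt (F.hU.mem_nhds hw)).differentiableAt (by simp)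

theorem contDiffOn_rt (i j : Fin n) : ContDiffOn ℝ ∞ (F.rt i j) F.U := by
  unfold rt
  have h1 : ContDiffOn ℝ ∞
      (fun w => ∑ k, (D k (F.gam k i j) w - D j (F.gam k i k) w)) F.U :=
    ContDiffOn.sum fun k _ => (contDiffOn_D F.hU (contDiffOn_gam k i j) k).sub
      (contDiffOn_D F.hU (contDiffOn_gam k i k) j)
  have h2 : ContDiffOn ℝ ∞ (fun w => ∑ k, ∑ l, (F.gam k k l w * F.gam l i j w -
      F.gam k j l w * F.gam l i k w)) F.U :=
    ContDiffOn.sum fun k _ => ContDiffOn.sum fun l _ =>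
      ((contDiffOn_gam k k l).mul (contDiffOn_gam l i j)).sub
      ((contDiffOn_gam k j l).mul (contDiffOn_gam l i k))
  exact h1.add (contDiffOn_fst.mul h2)

theorem chr_eq {ε : ℝ} {x : E n} (hw : (ε, x) ∈ F.U) (k i j : Fin n) :
    chr (F.G ε) k i j x = ε * F.gam k i j (ε, x) := by
  unfold chr gam
  rw [Finset.mul_sum, Finset.mul_sum, Finset.mul_sum]
  refine Finset.sum_congr rfl fun l _ => ?_
  rw [G_inv hw, pd_G hw, pd_G hw, pd_G hw]
  ring

theorem chr_eventually {ε : ℝ} {x : E n} (hw : (ε, x) ∈ F.U) (k i j : Fin n) :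
    chr (F.G ε) k i j =ᶠ[𝓝 x] fun y => ε * F.gam k i j (ε, y) := by
  have : ∀ᶠ y in 𝓝 x, (ε, y) ∈ F.U := by
    have hc : ContinuousAt (fun y : E n => (ε, y)) x := by fun_prop
    exact hc.preimage_mem_nhds (F.hU.mem_nhds hw)
  filter_upwards [this] with y hy
  exact chr_eq hy k i j

theorem pd_chr {ε : ℝ} {x : E n} (hw : (ε, x) ∈ F.U) (m k i j : Fin n) :
    pd m (chr (F.G ε) k i j) x = ε * D m (F.gam k i j) (ε, x) := by
  rw [pd_congr (chr_eventually hw k i j),
    pd_const_mul ε (differentiableAt_slice (diff_gam hw k i j)), pd_slice (diff_gam hw k i j)]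

theorem ric_eq {ε : ℝ} {x : E n} (hw : (ε, x) ∈ F.U) (i j : Fin n) :
    ric (F.G ε) i j x = ε * F.rt i j (ε, x) := by
  unfold ric rt
  simp only [pd_chr hw, chr_eq hw]
  rw [mul_add, Finset.mul_sum]
  congr 1
  · exact Finset.sum_congr rfl fun k _ => by ring
  · rw [Finset.mul_sum, Finset.mul_sum]
    refine Finset.sum_congr rfl fun k _ => ?_
    rw [Finset.mul_sum, Finset.mul_sum]
    refine Finset.sum_congr rfl fun l _ => ?_
    ring

/-! ### The value at `ε = 0` -/

theorem K_zero {x : E n} (hw : ((0 : ℝ), x) ∈ F.U) (k l : Fin n) :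
    F.K k l (0, x) = if k = l then 1 else 0 := by
  have := F.inv _ hw k l
  simpa using this

/-- The first order part of the metric. -/
noncomputable def h (F : Fam n) (i j : Fin n) (x : E n) : ℝ := F.H i j (0, x)

theorem gam_zero {x : E n} (hw : ((0 : ℝ), x) ∈ F.U) (k i j : Fin n) :
    F.gam k i j (0, x) =
      (1 / 2) * (pd i (F.h j k) x + pd j (F.h i k) x - pd k (F.h i j) x) := by
  unfold gam
  simp only [K_zero hw, ite_mul, one_mul, zero_mul, Finset.sum_ite_eq, Finset.mem_univ, if_true]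
  rw [← pd_slice (diffH hw j k), ← pd_slice (diffH hw i k), ← pd_slice (diffH hw i j)]
  rfl

theorem rt_zero {x : E n} (hU : ∀ y : E n, ((0 : ℝ), y) ∈ F.U)
    (hh : ∀ i j, ContDiff ℝ ⊤ (F.h i j)) (i j : Fin n) :
    F.rt i j (0, x) = (1 / 2) * ∑ k, (pd k (pd i (F.h j k)) x + pd k (pd j (F.h i k)) x
      - pd k (pd k (F.h i j)) x - pd j (pd i (F.h k k)) x) := by
  have hd : ∀ m i j, Differentiable ℝ (pd m (F.h i j)) := by
    intro m i j
    have h1 : ContDiff ℝ ∞ (fderiv ℝ (F.h i j)) :=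
      ContDiff.fderiv_right (n := ∞) (m := ∞) ((hh i j).of_le le_top) (by simp)
    have : ContDiff ℝ ∞ (pd m (F.h i j)) := h1.clm_apply contDiff_const
    exact this.differentiable (by simp)
  have key : ∀ m k i j, D m (F.gam k i j) (0, x) = (1 / 2) * (pd m (pd i (F.h j k)) x +
      pd m (pd j (F.h i k)) x - pd m (pd k (F.h i j)) x) := by
    intro m k i j
    rw [← pd_slice (diff_gam (hU x) k i j)]
    have e : (fun y => F.gam k i j (0, y)) = fun y =>
        (1 / 2) * (pd i (F.h j k) y + pd j (F.h i k) y - pd k (F.h i j) y) := by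
      funext y; exact gam_zero (hU y) k i j
    rw [e, pd_const_mul, pd_sub, pd_add]
    · exact (hd _ _ _).differentiableAt
    · exact (hd _ _ _).differentiableAt
    · exact (hd _ _ _).differentiableAt.add (hd _ _ _).differentiableAt
    · exact (hd _ _ _).differentiableAt
    · exact ((hd _ _ _).differentiableAt.add (hd _ _ _).differentiableAt).sub
        (hd _ _ _).differentiableAt
  unfold rt
  rw [zero_mul, add_zero, Finset.mul_sum]
  refine Finset.sum_congr rfl fun k _ => ?_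
  rw [key, key]
  ring

end Fam

end Pool.Agent.TH605.Esc
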