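import Pool.Agent.TH605.Esc.Defs

/-!
# Integer polynomials in three variables as nested lists

Kernel computable polynomial arithmetic, with partial derivatives, substitution and a
subdivision test for nonnegativity on the octant.
-/

namespace Pool.Agent.TH605.Esc

/-! ### Partial derivatives -/

section pd
variable {n : ℕ} {f g : E n → ℝ} {x : E n} {i : Fin n}

theorem pd_add (hf : DifferentiableAt ℝ f x) (hg : DifferentiableAt ℝ g x) :
    pd i (fun y => f y + g y) x = pd i f x + pd i g x := by
  unfold pd
  have := (hf.hasFDerivAt.add hg.hasFDerivAt).fderiv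
  have e : (f + g) = fun y => f y + g y := rfl
  rw [← e, this]; rfl

theorem pd_sub (hf : DifferentiableAt ℝ f x) (hg : DifferentiableAt ℝ g x) :
    pd i (fun y => f y - g y) x = pd i f x - pd i g x := by
  unfold pd
  have := (hf.hasFDerivAt.sub hg.hasFDerivAt).fderiv
  have e : (f - g) = fun y => f y - g y := rfl
  rw [← e, this]; rfl

theorem pd_mul (hf : DifferentiableAt ℝ f x) (hg : DifferentiableAt ℝ g x) :
    pd i (fun y => f y * g y) x = f x * pd i g x + pd i f x * g x := by
  unfold pd
  have := (hf.hasFDerivAt.mul hg.hasFDerivAt).fderiv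
  have e : (f * g) = fun y => f y * g y := rfl
  rw [← e, this]
  simp [mul_comm]

theorem pd_const (c : ℝ) : pd i (fun _ => c) x = 0 := by
  unfold pd; simp

theorem pd_coord (v : Fin n) : pd i (fun y : E n => y v) x = if i = v then 1 else 0 := by
  unfold pd
  have : HasFDerivAt (fun y : E n => y v) (ContinuousLinearMap.proj (R := ℝ) (φ := fun _ => ℝ) v) x :=
    (ContinuousLinearMap.proj (R := ℝ) (φ := fun _ => ℝ) v).hasFDerivAt
  rw [this.fderiv]
  simp [Pi.single_apply, eq_comm]

theorem pd_const_mul (c : ℝ) (hf : DifferentiableAt ℝ f x) :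
    pd i (fun y => c * f y) x = c * pd i f x := by
  rw [pd_mul (differentiableAt_const c) hf, pd_const]; ring

theorem pd_congr (h : f =ᶠ[nhds x] g) : pd i f x = pd i g x := by
  unfold pd; rw [h.fderiv_eq]

theorem pd_sum {ι : Type*} (s : Finset ι) (F : ι → E n → ℝ)
    (h : ∀ a ∈ s, DifferentiableAt ℝ (F a) x) :
    pd i (fun y => ∑ a ∈ s, F a y) x = ∑ a ∈ s, pd i (F a) x := by
  classical
  induction s using Finset.induction_on with
  | empty => simp [pd_const]
  | insert a s ha ih =>
    simp only [Finset.sum_insert ha]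
    rw [pd_add (h a (Finset.mem_insert_self a s))
      (by
        have : ∀ b ∈ s, DifferentiableAt ℝ (F b) x := fun b hb => h b (Finset.mem_insert_of_mem hb)
        have := DifferentiableAt.fun_sum this
        exact this),
      ih (fun b hb => h b (Finset.mem_insert_of_mem hb))]

end pd

/-! ### Nested lists -/

/-- Operations on coefficients. -/
structure Ops (R : Type) where
  zero : R
  add : R → R → R
  mul : R → R → R
  smul : ℤ → R → R
  d : Fin 3 → R → R
  nn : R → Bool
  isZ : R → Bool
  ev : R → E 3 → ℝ

/-- The laws. -/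
structure Laws {R : Type} (o : Ops R) : Prop where
  ev_zero : ∀ x, o.ev o.zero x = 0
  ev_add : ∀ a b x, o.ev (o.add a b) x = o.ev a x + o.ev b x
  ev_mul : ∀ a b x, o.ev (o.mul a b) x = o.ev a x * o.ev b x
  ev_smul : ∀ c a x, o.ev (o.smul c a) x = c * o.ev a x
  diff : ∀ a, ContDiff ℝ ⊤ (o.ev a)
  ev_d : ∀ i a x, pd i (o.ev a) x = o.ev (o.d i a) x
  nn : ∀ a, o.nn a = true → ∀ x : E 3, (∀ i, 0 ≤ x i) → 0 ≤ o.ev a x
  isZ : ∀ a, o.isZ a = true → ∀ x : E 3, o.ev a x = 0

/-- Addition of lists. -/
def ladd {R : Type} (add : R → R → R) : List R → List R → List R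
  | [], b => b
  | a, [] => a
  | x :: a, y :: b => add x y :: ladd add a b

/-- Multiplication of lists. -/
def lmul {R : Type} (o : Ops R) : List R → List R → List R
  | [], _ => []
  | x :: a, b => ladd o.add (b.map (o.mul x)) (o.zero :: lmul o a b)

/-- Evaluation. -/
noncomputable def lev {R : Type} (v : Fin 3) (ev : R → E 3 → ℝ) : List R → E 3 → ℝ
  | [], _ => 0
  | a :: l, x => ev a x + x v * lev v ev l x

/-- Derivative. -/
def ld {R : Type} (v : Fin 3) (o : Ops R) (i : Fin 3) : List R → List R
  | [] => []
  | a :: l => if i = v then ladd o.add [o.d i a] (ladd o.add l (o.zero :: ld v o i l))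
      else o.d i a :: ld v o i l

/-- Lift to lists. -/
noncomputable def lift {R : Type} (v : Fin 3) (o : Ops R) : Ops (List R) where
  zero := []
  add := ladd o.add
  mul := lmul o
  smul c l := l.map (o.smul c)
  d i l := ld v o i l
  nn l := l.all o.nn
  isZ l := l.all o.isZ
  ev := lev v o.ev

theorem lev_ladd {R : Type} {v : Fin 3} {o : Ops R} (h : Laws o) (a b : List R) (x : E 3) :
    lev v o.ev (ladd o.add a b) x = lev v o.ev a x + lev v o.ev b x := by
  induction a generalizing b with
  | nil => simp [ladd, lev]
  | cons a l ih =>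
    cases b with
    | nil => simp [ladd, lev]
    | cons b m => simp only [ladd, lev, h.ev_add, ih]; ring

theorem laws_lift {R : Type} {v : Fin 3} {o : Ops R} (h : Laws o) : Laws (lift v o) where
  ev_zero x := rfl
  ev_add a b x := lev_ladd h a b x
  ev_mul a b x := by
    show lev v o.ev (lmul o a b) x = lev v o.ev a x * lev v o.ev b x
    have hm : ∀ (c : R) (b : List R), lev v o.ev (b.map (o.mul c)) x = o.ev c x * lev v o.ev b x := by
      intro c b
      induction b with
      | nil => simp [lev]
      | cons b m ih => simp only [List.map_cons, lev, h.ev_mul, ih]; ring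
    induction a with
    | nil => simp [lmul, lev]
    | cons a l ih =>
      simp only [lmul, lev_ladd h, lev, h.ev_zero, ih, hm]; ring
  ev_smul c a x := by
    show lev v o.ev (a.map (o.smul c)) x = c * lev v o.ev a x
    induction a with
    | nil => simp [lev]
    | cons a l ih => simp only [List.map_cons, lev, h.ev_smul, ih]; ring
  diff a := by
    show ContDiff ℝ ⊤ (lev v o.ev a)
    induction a with
    | nil => exact contDiff_const
    | cons a l ih =>
      have : lev v o.ev (a :: l) = fun x => o.ev a x + x v * lev v o.ev l x := rfl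
      rw [this]
      have := h.diff a
      fun_prop
  ev_d i a x := by
    show pd i (lev v o.ev a) x = lev v o.ev (ld v o i a) x
    have hd : ∀ a : List R, ContDiff ℝ ⊤ (lev v o.ev a) := by
      intro a
      induction a with
      | nil => exact contDiff_const
      | cons a l ih =>
        have : lev v o.ev (a :: l) = fun x => o.ev a x + x v * lev v o.ev l x := rfl
        rw [this]
        have := h.diff a
        fun_prop
    induction a with
    | nil =>
      have : lev v o.ev [] = fun _ => 0 := rfl
      rw [this, pd_const]; rfl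
    | cons a l ih =>
      have e : lev v o.ev (a :: l) = fun x => o.ev a x + x v * lev v o.ev l x := rfl
      have h1 : DifferentiableAt ℝ (o.ev a) x := ((h.diff a).differentiable (by simp)).differentiableAt
      have h2 : DifferentiableAt ℝ (lev v o.ev l) x :=
        ((hd l).differentiable (by simp)).differentiableAt
      have h3 : DifferentiableAt ℝ (fun y : E 3 => y v) x := by fun_prop
      have h4 : DifferentiableAt ℝ (fun y : E 3 => y v * lev v o.ev l y) x := h3.mul h2
      rw [e, pd_add h1 h4, pd_mul h3 h2, pd_coord, h.ev_d, ih]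
      rw [ld]
      generalize ld v o i l = m
      split_ifs with hiv
      · rw [lev_ladd h, lev_ladd h]
        simp only [lev, h.ev_zero]; ring
      · simp only [lev]; ring
  nn a ha x hx := by
    show 0 ≤ lev v o.ev a x
    induction a with
    | nil => simp [lev]
    | cons a l ih =>
      have ha' : o.nn a = true ∧ l.all o.nn = true := by
        simpa [lift, List.all_cons] using ha
      have := h.nn a ha'.1 x hx
      have h2 := ih ha'.2
      simp only [lev]
      have := mul_nonneg (hx v) h2
      linarith
  isZ a ha x := by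
    show lev v o.ev a x = 0
    induction a with
    | nil => simp [lev]
    | cons a l ih =>
      have ha' : o.isZ a = true ∧ l.all o.isZ = true := by
        simpa [lift, List.all_cons] using ha
      simp only [lev, h.isZ a ha'.1 x, ih ha'.2]; ring

/-- Integers. -/
noncomputable def O0 : Ops ℤ where
  zero := 0
  add := fun a b => a + b
  mul := fun a b => a * b
  smul := fun a b => a * b
  d := fun _ _ => 0
  nn := fun a => decide (0 ≤ a)
  isZ := fun a => decide (a = 0)
  ev := fun a _ => (a : ℝ)

theorem L0 : Laws O0 where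
  ev_zero x := by simp [O0]
  ev_add a b x := by simp [O0]
  ev_mul a b x := by simp [O0]
  ev_smul a b x := by simp [O0]
  diff a := by simp only [O0]; exact contDiff_const
  ev_d i a x := by simp only [O0]; rw [pd_const]; simp
  nn a ha x hx := by simp only [O0, decide_eq_true_eq] at *; exact_mod_cast ha
  isZ a ha x := by simp only [O0, decide_eq_true_eq] at *; exact_mod_cast ha

/-- Polynomials in `x₂`. -/
noncomputable def O1 : Ops (List ℤ) := lift 2 O0
/-- Polynomials in `x₁, x₂`. -/
noncomputable def O2 : Ops (List (List ℤ)) := lift 1 O1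
/-- Polynomials in `x₀, x₁, x₂`. -/
noncomputable def O3 : Ops (List (List (List ℤ))) := lift 0 O2

theorem L1 : Laws O1 := laws_lift L0
theorem L2 : Laws O2 := laws_lift L1
theorem L3 : Laws O3 := laws_lift L2

/-- Integer polynomials in three variables. -/
abbrev P3 := List (List (List ℤ))

/-- Constant polynomial. -/
def cst (c : ℤ) : P3 := [[[c]]]
/-- The variable `x₀`. -/
def X0 : P3 := [[], [[1]]]
/-- The variable `x₁`. -/
def X1 : P3 := [[[], [1]]]
/-- The variable `x₂`. -/
def X2 : P3 := [[[0, 1]]]

/-- Evaluation. -/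
noncomputable def ev3 (p : P3) (x : E 3) : ℝ := O3.ev p x

theorem ev_cst (c : ℤ) (x : E 3) : ev3 (cst c) x = c := by
  simp [ev3, cst, O3, O2, O1, O0, lift, lev]

theorem ev_X0 (x : E 3) : ev3 X0 x = x 0 := by
  simp [ev3, X0, O3, O2, O1, O0, lift, lev]

theorem ev_X1 (x : E 3) : ev3 X1 x = x 1 := by
  simp [ev3, X1, O3, O2, O1, O0, lift, lev]

theorem ev_X2 (x : E 3) : ev3 X2 x = x 2 := by
  simp [ev3, X2, O3, O2, O1, O0, lift, lev]

/-- Sum. -/
noncomputable def add3 (p q : P3) : P3 := O3.add p q
/-- Product. -/
noncomputable def mul3 (p q : P3) : P3 := O3.mul p q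
/-- Scalar multiple. -/
noncomputable def smul3 (c : ℤ) (p : P3) : P3 := O3.smul c p
/-- Difference. -/
noncomputable def sub3 (p q : P3) : P3 := add3 p (smul3 (-1) q)
/-- Derivative. -/
noncomputable def d3 (i : Fin 3) (p : P3) : P3 := O3.d i p

theorem ev_add3 (p q : P3) (x : E 3) : ev3 (add3 p q) x = ev3 p x + ev3 q x := L3.ev_add p q x
theorem ev_mul3 (p q : P3) (x : E 3) : ev3 (mul3 p q) x = ev3 p x * ev3 q x := L3.ev_mul p q x
theorem ev_smul3 (c : ℤ) (p : P3) (x : E 3) : ev3 (smul3 c p) x = c * ev3 p x :=
  L3.ev_smul c p x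
theorem ev_sub3 (p q : P3) (x : E 3) : ev3 (sub3 p q) x = ev3 p x - ev3 q x := by
  rw [sub3, ev_add3, ev_smul3]; push_cast; ring
theorem ev_d3 (i : Fin 3) (p : P3) (x : E 3) : pd i (ev3 p) x = ev3 (d3 i p) x := L3.ev_d i p x
theorem contDiff_ev3 (p : P3) : ContDiff ℝ ⊤ (ev3 p) := L3.diff p

/-- Substitution in a nested list. -/
noncomputable def lsub {R : Type} (s : R → P3) (X : P3) : List R → P3
  | [] => []
  | a :: l => add3 (s a) (mul3 X (lsub s X l))

/-- `p(X, Y, Z)`. -/
noncomputable def subst (p X Y Z : P3) : P3 := lsub (lsub (lsub cst Z) Y) X p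

theorem ev_lsub {R : Type} (v : Fin 3) (evR : R → E 3 → ℝ) (s : R → P3) (X : P3) (x y : E 3)
    (hs : ∀ a, ev3 (s a) x = evR a y) (hX : ev3 X x = y v) (l : List R) :
    ev3 (lsub s X l) x = lev v evR l y := by
  induction l with
  | nil => simp [lsub, lev, ev3, O3, lift]
  | cons a l ih => rw [lsub, ev_add3, ev_mul3, hs, hX, ih]; rfl

theorem ev_subst (p X Y Z : P3) (x : E 3) :
    ev3 (subst p X Y Z) x = ev3 p ![ev3 X x, ev3 Y x, ev3 Z x] := by
  unfold subst
  refine ev_lsub 0 _ _ _ x _ (fun a => ?_) (by simp) p
  refine ev_lsub 1 _ _ _ x _ (fun a => ?_) (by simp) a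
  refine ev_lsub 2 _ _ _ x _ (fun a => ?_) (by simp) a
  rw [ev_cst]; rfl

/-- A subdivision tree. -/
inductive Tree
  | leaf
  | ab (l r : Tree)
  | bc (l r : Tree)
  | ca (l r : Tree)

/-- `2 p + q`. -/
noncomputable def two (p q : P3) : P3 := add3 (smul3 2 p) q

/-- The subdivision test. -/
noncomputable def check : Tree → P3 → Bool
  | .leaf, p => O3.nn p
  | .ab l r, p => check l (subst p (two X0 X1) X1 (smul3 2 X2)) &&
      check r (subst p X0 (two X1 X0) (smul3 2 X2))
  | .bc l r, p => check l (subst p (smul3 2 X0) (two X1 X2) X2) &&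
      check r (subst p (smul3 2 X0) X1 (two X2 X1))
  | .ca l r, p => check l (subst p X0 (smul3 2 X1) (two X2 X0)) &&
      check r (subst p (two X0 X2) (smul3 2 X1) X2)

theorem check_sound (t : Tree) (p : P3) (h : check t p = true) (a b c : ℝ) (ha : 0 ≤ a)
    (hb : 0 ≤ b) (hc : 0 ≤ c) : 0 ≤ ev3 p ![a, b, c] := by
  induction t generalizing p a b c with
  | leaf =>
    refine L3.nn p h _ ?_
    intro i; fin_cases i <;> simpa
  | ab l r ihl ihr =>
    rw [check, Bool.and_eq_true] at h
    rcases le_total b a with hab | hab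
    · have := ihl _ h.1 ((a - b) / 2) b (c / 2) (by linarith) hb (by linarith)
      rw [ev_subst] at this
      simp only [two, ev_add3, ev_smul3, ev_X0, ev_X1, ev_X2] at this
      convert this using 2
      ext i; fin_cases i <;> simp <;> ring
    · have := ihr _ h.2 a ((b - a) / 2) (c / 2) ha (by linarith) (by linarith)
      rw [ev_subst] at this
      simp only [two, ev_add3, ev_smul3, ev_X0, ev_X1, ev_X2] at this
      convert this using 2
      ext i; fin_cases i <;> simp <;> ring
  | bc l r ihl ihr =>
    rw [check, Bool.and_eq_true] at h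
    rcases le_total c b with hab | hab
    · have := ihl _ h.1 (a / 2) ((b - c) / 2) c (by linarith) (by linarith) hc
      rw [ev_subst] at this
      simp only [two, ev_add3, ev_smul3, ev_X0, ev_X1, ev_X2] at this
      convert this using 2
      ext i; fin_cases i <;> simp <;> ring
    · have := ihr _ h.2 (a / 2) b ((c - b) / 2) (by linarith) hb (by linarith)
      rw [ev_subst] at this
      simp only [two, ev_add3, ev_smul3, ev_X0, ev_X1, ev_X2] at this
      convert this using 2
      ext i; fin_cases i <;> simp <;> ring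
  | ca l r ihl ihr =>
    rw [check, Bool.and_eq_true] at h
    rcases le_total a c with hab | hab
    · have := ihl _ h.1 a (b / 2) ((c - a) / 2) ha (by linarith) (by linarith)
      rw [ev_subst] at this
      simp only [two, ev_add3, ev_smul3, ev_X0, ev_X1, ev_X2] at this
      convert this using 2
      ext i; fin_cases i <;> simp <;> ring
    · have := ihr _ h.2 ((a - c) / 2) (b / 2) c (by linarith) (by linarith) hc
      rw [ev_subst] at this
      simp only [two, ev_add3, ev_smul3, ev_X0, ev_X1, ev_X2] at this
      convert this using 2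
      ext i; fin_cases i <;> simp <;> ring

/-- `p = q` coefficientwise. -/
noncomputable def eq3 (p q : P3) : Bool := O3.isZ (sub3 p q)

theorem eq3_sound {p q : P3} (h : eq3 p q = true) (x : E 3) : ev3 p x = ev3 q x := by
  have := L3.isZ _ h x
  have h2 := ev_sub3 p q x
  unfold ev3 at *
  linarith

end Pool.Agent.TH605.Esc
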