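import Pool.Agent.TH605.Esc.Fam

/-!
# The second fundamental form of the unit sphere
-/

namespace Pool.Agent.TH605.Esc

open scoped ContDiff Topology

variable {n : ℕ}

namespace Fam

variable (F : Fam n)

/-- The squared length of `∑ xᵢ dxᵢ`. -/
noncomputable def N (w : ℝ × E n) : ℝ := ∑ k, ∑ l, F.K k l w * w.2 k * w.2 l

variable {F}

theorem diffK {w : ℝ × E n} (hw : w ∈ F.U) (i j : Fin n) : DifferentiableAt ℝ (F.K i j) w :=
  ((F.hK i j).contDiffAt (F.hU.mem_nhds hw)).differentiableAt (by simp)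

theorem normal_eq {ε : ℝ} {x : E n} (hw : (ε, x) ∈ F.U) (i : Fin n) :
    normal (F.G ε) x i = (∑ j, F.K i j (ε, x) * x j) * (√(F.N (ε, x)))⁻¹ := by
  unfold normal N
  simp only [G_inv hw]
  rw [div_eq_mul_inv]

theorem diff_coord2 (w : ℝ × E n) (i : Fin n) :
    DifferentiableAt ℝ (fun w : ℝ × E n => w.2 i) w := by fun_prop

theorem diffN {w : ℝ × E n} (hw : w ∈ F.U) : DifferentiableAt ℝ F.N w := by
  unfold N
  refine DifferentiableAt.fun_sum fun k _ => DifferentiableAt.fun_sum fun l _ => ?_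
  exact ((diffK hw k l).mul (diff_coord2 w k)).mul (diff_coord2 w l)

theorem eventually_U {ε : ℝ} {x : E n} (hw : (ε, x) ∈ F.U) : ∀ᶠ y in 𝓝 x, (ε, y) ∈ F.U := by
  have hc : ContinuousAt (fun y : E n => (ε, y)) x := by fun_prop
  exact hc.preimage_mem_nhds (F.hU.mem_nhds hw)

theorem sff_eq {ε : ℝ} {x : E n} (hw : (ε, x) ∈ F.U) (hsym : ∀ i j, F.H i j = F.H j i)
    (ksym : ∀ i j, F.K i j = F.K j i)
    (hN : 0 < F.N (ε, x)) (v w : E n) (hwt : IsTangent x w) :
    sff (F.G ε) x v w = (√(F.N (ε, x)))⁻¹ *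
      (∑ i, v i * w i - ε * ∑ k, ∑ j, v k * w j * ∑ m, x m * F.gam m k j (ε, x)) := by
  set s : E n → ℝ := fun y => (√(F.N (ε, y)))⁻¹ with hs
  set ν : Fin n → E n → ℝ := fun i y => normal (F.G ε) y i with hν
  set ν' : Fin n → E n → ℝ := fun i y => (∑ j, F.K i j (ε, y) * y j) * s y with hν'
  have hsd : DifferentiableAt ℝ s x := by
    have h1 := differentiableAt_slice (diffN hw)
    exact (h1.sqrt hN.ne').inv (Real.sqrt_ne_zero'.2 hN)
  have hνe : ∀ i, ν i =ᶠ[𝓝 x] ν' i := by
    intro i
    filter_upwards [eventually_U hw] with y hy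
    exact normal_eq hy i
  have hν'd : ∀ i, DifferentiableAt ℝ (ν' i) x := by
    intro i
    refine DifferentiableAt.mul (DifferentiableAt.fun_sum fun j _ => ?_) hsd
    exact (differentiableAt_slice (diffK hw i j)).mul (by fun_prop)
  have hνd : ∀ i, DifferentiableAt ℝ (ν i) x := fun i =>
    (hνe i).symm.differentiableAt_iff.1 (hν'd i)
  have hGd : ∀ i j, DifferentiableAt ℝ (fun y => F.G ε y i j) x := by
    intro i j
    have h1 := differentiableAt_slice (diffH hw i j)
    exact (differentiableAt_const _).add (h1.const_mul ε)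
  have hinv : ∀ y, (ε, y) ∈ F.U → ∀ i j, ∑ l, F.G ε y i l * F.K l j (ε, y) =
      if i = j then 1 else 0 := by
    intro y hy i j
    simp only [G_apply]
    exact F.inv _ hy i j
  have hGs : ∀ i j, (fun y => F.G ε y i j) = fun y => F.G ε y j i := by
    intro i j; funext y
    simp only [G_apply, hsym i j, eq_comm]
  -- the covector of the normal
  have hcov : ∀ y, (ε, y) ∈ F.U → ∀ m, ∑ i, F.G ε y m i * ν' i y = y m * s y := by
    intro y hy m
    have : ∀ i, F.G ε y m i * ν' i y = ∑ j, F.G ε y m i * F.K i j (ε, y) * (y j * s y) := by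
      intro i
      simp only [hν', Finset.sum_mul, Finset.mul_sum]
      exact Finset.sum_congr rfl fun j _ => by ring
    simp only [this]
    rw [Finset.sum_comm]
    simp only [← Finset.sum_mul, hinv y hy]
    simp
  have hder : ∀ k m, ∑ i, (F.G ε x m i * pd k (ν i) x + pd k (fun y => F.G ε y m i) x * ν i x) =
      x m * pd k s x + (if k = m then 1 else 0) * s x := by
    intro k m
    have e1 : (fun y => ∑ i, F.G ε y m i * ν i y) =ᶠ[𝓝 x] fun y => y m * s y := by
      have : ∀ᶠ y in 𝓝 x, ∀ i, ν i y = ν' i y := Filter.eventually_all.2 fun i => hνe i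
      filter_upwards [eventually_U hw, this] with y hy h2
      simp only [h2]
      exact hcov y hy m
    have e2 := pd_congr (i := k) e1
    rw [pd_mul (by fun_prop) hsd, pd_coord, pd_sum] at e2
    · rw [← e2]
      exact Finset.sum_congr rfl fun i _ => (pd_mul (hGd m i) (hνd i)).symm
    · intro i _
      exact (hGd m i).mul (hνd i)
  -- lowered Christoffel symbols
  have hlow : ∀ j k l, ∑ i, F.G ε x j i * chr (F.G ε) i k l x = (1 / 2) *
      (pd k (fun y => F.G ε y l j) x + pd l (fun y => F.G ε y k j) x -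
        pd j (fun y => F.G ε y k l) x) := by
    intro j k l
    have e1 : ∀ i, F.G ε x j i * chr (F.G ε) i k l x = ∑ p, F.G ε x j i * F.K i p (ε, x) *
        ((1 / 2) * (pd k (fun y => F.G ε y l p) x + pd l (fun y => F.G ε y k p) x -
        pd p (fun y => F.G ε y k l) x)) := by
      intro i
      unfold chr
      simp only [G_inv hw, Finset.mul_sum]
      exact Finset.sum_congr rfl fun p _ => by ring
    simp only [e1]
    rw [Finset.sum_comm]
    simp only [← Finset.sum_mul, hinv x hw]
    simp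
  have hxG : ∀ k j, ∑ l, (1 / 2) * (pd k (fun y => F.G ε y j l) x +
      pd j (fun y => F.G ε y k l) x - pd l (fun y => F.G ε y k j) x) * ν l x =
      s x * ∑ m, x m * chr (F.G ε) m k j x := by
    intro k j
    have e1 : ∀ l, ν l x = ∑ m, F.K m l (ε, x) * x m * s x := by
      intro l
      have : ν l x = ν' l x := (hνe l).eq_of_nhds
      rw [this]
      show (∑ j, F.K l j (ε, x) * x j) * s x = _
      rw [Finset.sum_mul]
      exact Finset.sum_congr rfl fun m _ => by rw [ksym l m]
    simp only [e1, Finset.mul_sum]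
    rw [Finset.sum_comm]
    refine Finset.sum_congr rfl fun m _ => ?_
    unfold chr
    simp only [G_inv hw, Finset.mul_sum]
    exact Finset.sum_congr rfl fun l _ => by ring
  have hT : ∀ k j, ∑ i, F.G ε x i j * (pd k (ν i) x + ∑ l, chr (F.G ε) i k l x * ν l x) =
      x j * pd k s x + (if k = j then 1 else 0) * s x - s x * ∑ m, x m * chr (F.G ε) m k j x := by
    intro k j
    have e1 : ∑ i, F.G ε x i j * (pd k (ν i) x + ∑ l, chr (F.G ε) i k l x * ν l x) =
        ∑ i, (F.G ε x j i * pd k (ν i) x + pd k (fun y => F.G ε y j i) x * ν i x) -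
        ∑ i, pd k (fun y => F.G ε y j i) x * ν i x +
        ∑ l, (∑ i, F.G ε x j i * chr (F.G ε) i k l x) * ν l x := by
      rw [← Finset.sum_sub_distrib]
      have e2 : ∑ l, (∑ i, F.G ε x j i * chr (F.G ε) i k l x) * ν l x =
          ∑ i, F.G ε x j i * ∑ l, chr (F.G ε) i k l x * ν l x := by
        simp only [Finset.sum_mul, Finset.mul_sum]
        rw [Finset.sum_comm]
        exact Finset.sum_congr rfl fun i _ => Finset.sum_congr rfl fun l _ => by ring
      rw [e2, ← Finset.sum_add_distrib]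
      refine Finset.sum_congr rfl fun i _ => ?_
      have : F.G ε x i j = F.G ε x j i := congrFun (hGs i j) x
      rw [this]; ring
    rw [e1, hder k j, ← hxG k j]
    simp only [hlow]
    have e3 : ∑ l, (1 / 2) * (pd k (fun y => F.G ε y j l) x +
        pd j (fun y => F.G ε y k l) x - pd l (fun y => F.G ε y k j) x) * ν l x =
        ∑ i, pd k (fun y => F.G ε y j i) x * ν i x -
        ∑ l, (1 / 2) * (pd k (fun y => F.G ε y l j) x + pd l (fun y => F.G ε y k j) x -
        pd j (fun y => F.G ε y k l) x) * ν l x := by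
      rw [← Finset.sum_sub_distrib]
      refine Finset.sum_congr rfl fun l _ => ?_
      rw [hGs l j]; ring
    rw [e3]; ring
  have hsum : sff (F.G ε) x v w = ∑ k, ∑ j, v k * w j *
      ∑ i, F.G ε x i j * (pd k (ν i) x + ∑ l, chr (F.G ε) i k l x * ν l x) := by
    unfold sff
    have e1 : ∀ i j, F.G ε x i j * (∑ k, v k * (pd k (fun y => normal (F.G ε) y i) x +
        ∑ l, chr (F.G ε) i k l x * normal (F.G ε) x l)) * w j =
        ∑ k, v k * w j * (F.G ε x i j * (pd k (ν i) x + ∑ l, chr (F.G ε) i k l x * ν l x)) := by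
      intro i j
      rw [Finset.mul_sum, Finset.sum_mul]
      exact Finset.sum_congr rfl fun k _ => by simp only [hν]; ring
    simp only [e1]
    have e2 : ∀ k j, v k * w j *
        ∑ i, F.G ε x i j * (pd k (ν i) x + ∑ l, chr (F.G ε) i k l x * ν l x) =
        ∑ i, v k * w j * (F.G ε x i j * (pd k (ν i) x + ∑ l, chr (F.G ε) i k l x * ν l x)) :=
      fun k j => Finset.mul_sum _ _ _
    simp only [e2]
    have e3 : ∀ f : Fin n → Fin n → Fin n → ℝ,
        ∑ i, ∑ j, ∑ k, f i j k = ∑ k, ∑ j, ∑ i, f i j k := by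
      intro f
      calc ∑ i, ∑ j, ∑ k, f i j k = ∑ i, ∑ k, ∑ j, f i j k :=
            Finset.sum_congr rfl fun i _ => Finset.sum_comm
        _ = ∑ k, ∑ i, ∑ j, f i j k := Finset.sum_comm
        _ = ∑ k, ∑ j, ∑ i, f i j k := Finset.sum_congr rfl fun k _ => Finset.sum_comm
    exact e3 _
  rw [hsum]
  simp only [hT]
  simp only [chr_eq hw]
  have hw0 : ∑ j, x j * w j = 0 := hwt
  have e4 : ∀ k j, v k * w j * (x j * pd k s x + (if k = j then 1 else 0) * s x -
      s x * ∑ m, x m * (ε * F.gam m k j (ε, x))) =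
      (x j * w j) * (v k * pd k s x) + (if k = j then v k * w j * s x else 0) -
      s x * (ε * (v k * w j * ∑ m, x m * F.gam m k j (ε, x))) := by
    intro k j
    have : ∑ m, x m * (ε * F.gam m k j (ε, x)) = ε * ∑ m, x m * F.gam m k j (ε, x) := by
      rw [Finset.mul_sum]; exact Finset.sum_congr rfl fun m _ => by ring
    rw [this]
    split_ifs <;> ring
  simp only [e4, Finset.sum_sub_distrib, Finset.sum_add_distrib, ← Finset.sum_mul,
    ← Finset.mul_sum, hw0]
  simp only [Finset.sum_ite_eq, Finset.mem_univ, if_true, ← Finset.sum_mul]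
  simp only [hs]
  ring

end Fam

end Pool.Agent.TH605.Esc
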